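import Mathlib
import Pool.Agent.Y263.GF.Ball
import Pool.Agent.TH310.Cor.Red

/-!
Localisation of the corona problem on the ball to cells defined by finitely many functions of the
form `f ∘ ψ`, where `ψ` has affine fibres.
-/

set_option autoImplicit false

open Metric Set Filter Topology WeakDual

namespace Pool.Agent.Helper85K9.Cor

open Pool.Agent.TH310.Cor
open Pool.Agent.H326R3.CB (Bt)
open Pool.Agent.Y263.GF (AF loc_aff)
open Pool.Agent.Y263.LF (Bez Bez.mono)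

/-- `u = f ∘ ψ` on the ball of `X`, where `ψ` is a holomorphic map from the ball to the disc with
affine fibres and `f` a holomorphic function on the disc bounded by `1` -/
def One {X : Type} [NormedAddCommGroup X] [InnerProductSpace ℂ X] (u : X → ℂ) : Prop :=
  ∃ (f : ℂ → ℂ) (ψ : X → ℂ), AF (ball (0 : X) 1) ψ ∧ (∀ z ∈ ball (0 : X) 1, ‖ψ z‖ < 1) ∧
    DifferentiableOn ℂ f (ball 0 1) ∧ (∀ w ∈ ball (0 : ℂ) 1, ‖f w‖ ≤ 1) ∧
    ∀ z ∈ ball (0 : X) 1, u z = f (ψ z)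

theorem Id_univ' {m : ℕ} {I : Type} [TopologicalSpace I] [DiscreteTopology I] :
    (Id m (univ : Set I)) = 1 := by
  apply ext'
  rintro ⟨k, z⟩
  rw [Id_mem (mem_univ k)]
  rfl

theorem one_sub_inner' {m : ℕ} {p z : V m} (hp : ‖p‖ = 1) (hz : ‖z‖ ≤ 1) {ρ : ℝ}
    (hρ : 0 ≤ ρ) (h : ρ ≤ ‖z - p‖) : ρ ^ 2 / 2 ≤ ‖(1 : ℂ) - inner ℂ p z‖ := by
  have h3 : ‖z - p‖ ^ 2 = ‖z‖ ^ 2 - 2 * (inner ℂ p z : ℂ).re + 1 := by
    rw [norm_sub_sq (𝕜 := ℂ), hp]
    have : RCLike.re (inner ℂ z p : ℂ) = (inner ℂ p z : ℂ).re :=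
      inner_re_symm (𝕜 := ℂ) _ _
    rw [this]
    ring
  have h4 : ρ ^ 2 ≤ ‖z - p‖ ^ 2 := pow_le_pow_left₀ hρ h 2
  have h5 : ‖z‖ ^ 2 ≤ 1 := by nlinarith [norm_nonneg z]
  have h6 : ((1 : ℂ) - inner ℂ p z).re ≤ ‖(1 : ℂ) - inner ℂ p z‖ := Complex.re_le_norm _
  rw [Complex.sub_re, Complex.one_re] at h6
  linarith

theorem inner_AF {X : Type} [NormedAddCommGroup X] [InnerProductSpace ℂ X] (p : X) :
    AF (ball (0 : X) 1) (fun z => (inner ℂ p z : ℂ)) := by
  refine ⟨(innerSL ℂ p).differentiable.differentiableOn, fun z _ z' _ => ?_⟩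
  have h1 : fderiv ℂ (fun z : X => (inner ℂ p z : ℂ)) z = innerSL ℂ p :=
    (innerSL ℂ p).hasFDerivAt.fderiv
  rw [h1]
  simp only [innerSL_apply_apply, inner_sub_right]
  exact sub_eq_zero.symm

theorem One.diff {X : Type} [NormedAddCommGroup X] [InnerProductSpace ℂ X] {u : X → ℂ}
    (h : One u) : DifferentiableOn ℂ u (ball 0 1) := by
  obtain ⟨f, ψ, h1, h2, h3, h4, h5⟩ := h
  refine DifferentiableOn.congr (f := fun z => f (ψ z)) ?_ h5
  exact h3.comp h1.diff (fun z hz => mem_ball_zero_iff.2 (h2 z hz))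

theorem One.bd {X : Type} [NormedAddCommGroup X] [InnerProductSpace ℂ X] {u : X → ℂ}
    (h : One u) : ∀ z ∈ ball (0 : X) 1, ‖u z‖ ≤ 1 := by
  obtain ⟨f, ψ, h1, h2, h3, h4, h5⟩ := h
  intro z hz
  rw [h5 z hz]
  exact h4 _ (mem_ball_zero_iff.2 (h2 z hz))

/-- localisation theorem in a convenient form: one function for each map, and a set `S` on which
the Bezout equation is solved -/
theorem loc_one (K M : ℕ) {ε Q : ℝ} (hε : 0 < ε) :
    ∃ C : ℝ, ∀ (X : Type) [NormedAddCommGroup X] [InnerProductSpace ℂ X] [FiniteDimensional ℂ X]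
    (u : Fin K → X → ℂ) (c : Fin K → ℂ), (∀ k, One (u k)) → (∀ k, ‖c k‖ ≤ 1) →
    ∀ (G : Fin M → X → ℂ), (∀ j, DifferentiableOn ℂ (G j) (ball 0 1)) →
    (∀ j, ∀ z ∈ ball (0 : X) 1, ‖G j z‖ ≤ 1) →
    (∀ z₀ ∈ ball (0 : X) 1, (∀ k, ‖u k z₀ - c k‖ < ε) →
      Bez {z : X | z ∈ ball (0 : X) 1 ∧ ∀ k, ‖u k z - c k‖ < ε} G Q) →
    Bez (ball 0 1) (Sum.elim (fun (k : Fin K) z => (u k z - c k) / 2) G) C := by
  obtain ⟨C, -, H⟩ := loc_aff 1 K M (ε := ε / 2) (Q := max Q 0) (by positivity)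
    (le_max_right _ _)
  refine ⟨C, ?_⟩
  intro X _ _ _ u c hu hc G hG hGb hS
  choose f ψ h1 h2 h3 h4 h5 using hu
  have key : ∀ k, ∀ z ∈ ball (0 : X) 1, (f k (ψ k z) - c k) / 2 = (u k z - c k) / 2 := by
    intro k z hz
    rw [h5 k z hz]
  have hn : ∀ x : ℂ, ‖x / 2‖ < ε / 2 ↔ ‖x‖ < ε := by
    intro x
    rw [norm_div, show ‖(2 : ℂ)‖ = 2 by norm_num]
    constructor <;> intro h <;> linarith
  obtain ⟨g, g1, g2, g3⟩ := H X ψ (fun k _ w => (f k w - c k) / 2) h1 h2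
    (fun k _ => ((h3 k).sub_const _).div_const _)
    (fun k _ w hw => by
      rw [norm_div, show ‖(2 : ℂ)‖ = 2 by norm_num, div_le_one (by norm_num)]
      have h6 := norm_sub_le (f k w) (c k)
      have h7 := h4 k w hw
      have h8 := hc k
      linarith) G hG hGb
    (by
      by_cases hne : ∃ z₀ ∈ ball (0 : X) 1, ∀ k, ‖u k z₀ - c k‖ < ε
      · obtain ⟨z₀, hz₀, hz₀c⟩ := hne
        refine (hS z₀ hz₀ hz₀c).mono ?_ (le_max_left _ _)
        rintro z ⟨hz, hzk⟩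
        have hz' : z ∈ ball (0 : X) 1 := mem_ball_zero_iff.2 hz
        refine ⟨hz', fun k => ?_⟩
        have h6 := hzk k 0
        rw [key k z hz', hn] at h6
        exact h6
      · have hemp : {z : X | ‖z‖ < 1 ∧ ∀ (k : Fin K) (_ : Fin 1), ‖(f k (ψ k z) - c k) / 2‖ < ε / 2} =
            ∅ := by
          rw [eq_empty_iff_forall_notMem]
          rintro z ⟨hz, hzk⟩
          have hz' : z ∈ ball (0 : X) 1 := mem_ball_zero_iff.2 hz
          refine hne ⟨z, hz', fun k => ?_⟩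
          have h6 := hzk k 0
          rw [key k z hz', hn] at h6
          exact h6
        rw [hemp]
        exact ⟨fun _ _ => 0, fun _ => differentiableOn_const _, fun _ z hz => hz.elim,
          fun z hz => hz.elim⟩)
  refine ⟨Sum.elim (fun k => g (Sum.inl (k, 0))) (fun j => g (Sum.inr j)), ?_, ?_, ?_⟩
  · rintro (k | j)
    · exact g1 _
    · exact g1 _
  · rintro (k | j) z hz
    · exact g2 _ z hz
    · exact g2 _ z hz
  · intro z hz
    rw [← g3 z hz, Fintype.sum_sum_type, Fintype.sum_sum_type, Fintype.sum_prod_type]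
    simp only [Sum.elim_inl, Sum.elim_inr, Finset.univ_unique, Finset.sum_singleton,
      Fin.default_eq_zero]
    congr 1
    exact Finset.sum_congr rfl fun k _ => by rw [key k z hz]

/-- **Cell theorem**, for families. -/
theorem cell_fam {m : ℕ} {I : Type} {N : ℕ} {F : I → Fin N → V m → ℂ} (hF : ∀ i j, HB (F i j))
    {δ : ℝ} (hδ : 0 < δ) (hlow : ∀ i, ∀ z ∈ ball (0 : V m) 1, δ ≤ ∑ j, ‖F i j z‖)
    (hloc : ∀ p : V m, ‖p‖ = 1 → ∃ (L : ℕ) (ρ ε Q : ℝ), 0 < ρ ∧ 0 < ε ∧ ∀ i,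
      ∃ u : Fin L → V m → ℂ, (∀ l, One (u l)) ∧ ∀ z₀ ∈ ball (0 : V m) 1 ∩ ball p ρ,
        Bez {z | z ∈ ball (0 : V m) 1 ∩ ball p ρ ∧ ∀ l, ‖u l z - u l z₀‖ < ε} (F i) Q) :
    Solv F := by
  classical
  by_contra hns
  let tI : TopologicalSpace I := ⊥
  have dI : DiscreteTopology I := ⟨rfl⟩
  obtain ⟨χ, hχ⟩ := exists_zero hF hns
  obtain ⟨p, hpχ⟩ : ∃ p, p = pt χ := ⟨_, rfl⟩
  have hp1 : ‖p‖ = 1 := by
    rcases lt_or_eq_of_le (pt_norm χ) with h3 | h3
    · exfalso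
      have hpt : pt χ ∈ ball (0 : V m) 1 := by rw [mem_ball_zero_iff]; exact h3
      refine char_index (ι := Fin N) χ (fun o x => F x o (pt χ)) (C := 1)
        (fun o x => (hF x o).2 _ hpt) hδ (fun x => hlow x _ hpt) ?_
      intro o
      have h4 := char_interior χ h3 (El (f := fun x z => F x o z) (fun x => hF x o))
      have h5 : χ (El (f := fun x z => F x o z) (fun x => hF x o)) = 0 := hχ o
      rw [h5] at h4
      refine Eq.trans (congrArg χ ?_) h4.symm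
      exact ext' fun x => rfl
    · rw [hpχ]; exact h3
  obtain ⟨L, ρ, ε, Q, hρ, hε, hu⟩ := hloc p hp1
  choose u hu1 hu2 using hu
  have huB : ∀ i l, HB (u i l) := fun i l => ⟨(hu1 i l).diff, (hu1 i l).bd⟩
  -- the values of the character
  obtain ⟨c, hc⟩ : ∃ c : Fin L → ℂ, ∀ l, c l = χ (El (f := fun i => u i l) (fun i => huB i l)) :=
    ⟨_, fun l => rfl⟩
  have hc1 : ∀ l, ‖c l‖ ≤ 1 := by
    intro l
    rw [hc l]
    refine (char_le χ _).trans (norm_le zero_le_one fun x => ?_)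
    exact (huB x.1 l).2 x.2 x.2.2
  -- localisation
  obtain ⟨ε₁, hε₁⟩ : ∃ ε₁ : ℝ, ε₁ = min (ε / 2) (ρ ^ 2 / 2) := ⟨_, rfl⟩
  have hε₁0 : 0 < ε₁ := by rw [hε₁]; positivity
  have hε₁a : ε₁ ≤ ε / 2 := by rw [hε₁]; exact min_le_left _ _
  have hε₁b : ε₁ ≤ ρ ^ 2 / 2 := by rw [hε₁]; exact min_le_right _ _
  obtain ⟨C, HC⟩ := loc_one (L + 1) N (ε := ε₁) (Q := Q) hε₁0
  have hinner : One (fun z : V m => (inner ℂ p z : ℂ)) := by
    refine ⟨fun w => w, fun z => inner ℂ p z, inner_AF p, fun z hz => ?_, differentiableOn_id,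
      fun w hw => (mem_ball_zero_iff.1 hw).le, fun z _ => rfl⟩
    rw [mem_ball_zero_iff] at hz
    calc ‖(inner ℂ p z : ℂ)‖ ≤ ‖p‖ * ‖z‖ := norm_inner_le_norm p z
      _ < 1 := by rw [hp1, one_mul]; exact hz
  set u' : I → Fin (L + 1) → V m → ℂ := fun i => Fin.cons (fun z => (inner ℂ p z : ℂ)) (u i)
    with hu'
  set c' : Fin (L + 1) → ℂ := Fin.cons 1 c with hc'
  have hu'1 : ∀ i k, One (u' i k) := by
    intro i k
    refine Fin.cases ?_ (fun l => ?_) k
    · exact hinner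
    · exact hu1 i l
  have hc'1 : ∀ k, ‖c' k‖ ≤ 1 := by
    intro k
    refine Fin.cases ?_ (fun l => ?_) k
    · simp [hc']
    · simpa [hc'] using hc1 l
  have hsol : ∀ i, Bez (ball 0 1)
      (Sum.elim (fun (k : Fin (L + 1)) z => (u' i k z - c' k) / 2) (F i)) C := by
    intro i
    refine HC (V m) (u' i) c' (hu'1 i) hc'1 (F i) (fun j => (hF i j).1) (fun j => (hF i j).2) ?_
    intro z₀ hz₀ hz₀c
    have hball : ∀ z ∈ ball (0 : V m) 1, (∀ k, ‖u' i k z - c' k‖ < ε₁) → z ∈ ball p ρ := by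
      intro z hz hzc
      have h6 : ‖(inner ℂ p z : ℂ) - 1‖ < ε₁ := hzc 0
      rw [mem_ball, dist_eq_norm]
      by_contra hcon
      push Not at hcon
      have h7 := one_sub_inner' hp1 (mem_ball_zero_iff.1 hz).le hρ.le hcon
      rw [norm_sub_rev] at h7
      linarith
    refine (hu2 i z₀ ⟨hz₀, hball z₀ hz₀ hz₀c⟩).mono ?_ le_rfl
    rintro z ⟨hz, hzc⟩
    refine ⟨⟨hz, hball z hz hzc⟩, fun l => ?_⟩
    have h6 : ‖u i l z - c l‖ < ε₁ := hzc l.succ
    have h7 : ‖u i l z₀ - c l‖ < ε₁ := hz₀c l.succ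
    have h8 : u i l z - u i l z₀ = (u i l z - c l) - (u i l z₀ - c l) := by ring
    rw [h8]
    have h9 := norm_sub_le (u i l z - c l) (u i l z₀ - c l)
    linarith
  have hFB : ∀ i (o : Fin (L + 1) ⊕ Fin N),
      HB (Sum.elim (fun (k : Fin (L + 1)) z => (u' i k z - c' k) / 2) (F i) o) := by
    intro i o
    rcases o with k | j
    · refine ⟨?_, fun z hz => ?_⟩
      · have h6 := (hu'1 i k).diff
        simp only [div_eq_mul_inv]
        exact (h6.sub_const _).mul_const _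
      · change ‖(u' i k z - c' k) / 2‖ ≤ 1
        rw [norm_div, show ‖(2 : ℂ)‖ = 2 by norm_num, div_le_one (by norm_num)]
        have h6 := norm_sub_le (u' i k z) (c' k)
        have h7 := (hu'1 i k).bd z hz
        have h8 := hc'1 k
        linarith
    · exact hF i j
  refine not_solv (F := fun i => Sum.elim (fun (k : Fin (L + 1)) z => (u' i k z - c' k) / 2) (F i))
    hFB χ univ (by rw [Id_univ', map_one]) ?_ ⟨C, fun i => hsol i.1⟩
  intro o
  rcases o with k | j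
  · refine Fin.cases ?_ (fun l => ?_) k
    · have h3 : El (f := fun (i : I) => Sum.elim (fun (k : Fin (L + 1)) z => (u' i k z - c' k) / 2)
          (F i) (Sum.inl 0)) (fun i => hFB i (Sum.inl 0)) = (Cc (1/2) * (Lw p - 1) : HI I m) := by
        apply ext'
        rintro ⟨x, z⟩
        change ((inner ℂ p (z : V m) : ℂ) - 1) / 2 = (1/2 : ℂ) * (inner ℂ p (z : V m) - 1)
        ring
      rw [h3, map_mul, char_Cc, map_sub, map_one, char_Lw, ← hpχ, inner_self_eq_norm_sq_to_K, hp1]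
      norm_num
    · have h3 : El (f := fun (i : I) => Sum.elim (fun (k : Fin (L + 1)) z => (u' i k z - c' k) / 2)
          (F i) (Sum.inl l.succ)) (fun i => hFB i (Sum.inl l.succ)) =
          (Cc (1/2) * (El (f := fun i => u i l) (fun i => huB i l) - Cc (c l)) : HI I m) := by
        apply ext'
        rintro ⟨x, z⟩
        change (u x l (z : V m) - c l) / 2 = (1/2 : ℂ) * (u x l (z : V m) - c l)
        ring
      rw [h3, map_mul, map_sub, char_Cc, char_Cc, ← hc l, sub_self, mul_zero]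
  · exact hχ j

end Pool.Agent.Helper85K9.Cor
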