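import Mathlib
import Pool.Agent.Helper85K9.Cor.Cell

/-!
The Banach algebra of bounded families of holomorphic functions on balls of different dimensions, and
the cell theorem with constants independent of the dimension.
-/

set_option autoImplicit false

open Metric Set Filter Topology WeakDual

namespace Pool.Agent.Helper85K9.Cor

open Pool.Agent.TH310.Cor (V HB)
open Pool.Agent.H326R3.CB (Bt)
open Pool.Agent.Y263.LF (Bez Bez.mono)

/-- the disjoint union of the balls, with the discrete topology -/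
structure Pt {I : Type} (m : I → ℕ) : Type where
  /-- the index -/
  ix : I
  /-- the point -/
  pt : Bt (m ix)

instance {I : Type} (m : I → ℕ) : TopologicalSpace (Pt m) := ⊥
instance {I : Type} (m : I → ℕ) : DiscreteTopology (Pt m) := ⟨rfl⟩

variable {I : Type} {m : I → ℕ}

/-- the algebra of bounded families of holomorphic functions -/
noncomputable def HD (m : I → ℕ) : Subalgebra ℂ (BoundedContinuousFunction (Pt m) ℂ) where
  carrier := {F | ∀ k, ∃ f : V (m k) → ℂ, DifferentiableOn ℂ f (ball 0 1) ∧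
    ∀ z : Bt (m k), F (⟨k, z⟩ : Pt m) = f z}
  mul_mem' := by
    rintro F G hF hG k
    obtain ⟨f, hf, hF⟩ := hF k
    obtain ⟨g, hg, hG⟩ := hG k
    refine ⟨fun z => f z * g z, hf.mul hg, fun z => ?_⟩
    rw [BoundedContinuousFunction.mul_apply, hF, hG]
  add_mem' := by
    rintro F G hF hG k
    obtain ⟨f, hf, hF⟩ := hF k
    obtain ⟨g, hg, hG⟩ := hG k
    refine ⟨fun z => f z + g z, hf.add hg, fun z => ?_⟩
    rw [BoundedContinuousFunction.add_apply, hF, hG]
  algebraMap_mem' := by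
    intro c k
    exact ⟨fun _ => c, differentiableOn_const _, fun z => rfl⟩

theorem isClosed_HD : IsClosed ((HD m : Subalgebra ℂ (BoundedContinuousFunction (Pt m) ℂ)) :
    Set (BoundedContinuousFunction (Pt m) ℂ)) := by
  apply IsSeqClosed.isClosed
  intro F G hF hG i
  choose f hf hFf using fun k => hF k i
  have hbd : ∃ C : ℝ, ∀ k, ‖F k‖ ≤ C := by
    obtain ⟨C, hC⟩ := hG.norm.bddAbove_range
    exact ⟨C, fun k => hC ⟨k, rfl⟩⟩
  obtain ⟨C, hC⟩ := hbd
  obtain ⟨g, hg, -, hlim⟩ := Pool.Agent.H720R2.Cor.ultra_lim (isOpen_ball (x := (0 : V (m i)))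
    (ε := 1)) (C := C) (Ultrafilter.of (atTop : Filter ℕ)) f hf (fun k z hz => by
      have := (F k).norm_coe_le_norm (⟨i, ⟨z, hz⟩⟩ : Pt m)
      rw [hFf] at this
      exact this.trans (hC k))
  refine ⟨g, hg, fun z => ?_⟩
  have h1 : Tendsto (fun k => f k z) atTop (𝓝 (G (⟨i, z⟩ : Pt m))) := by
    have h2 := ((BoundedContinuousFunction.tendsto_iff_tendstoUniformly.1 hG).tendsto_at
      (⟨i, z⟩ : Pt m))
    refine h2.congr (fun k => ?_)
    exact hFf k z
  exact tendsto_nhds_unique (h1.mono_left (Ultrafilter.of_le _)) (hlim z z.2)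

noncomputable instance : NormedCommRing (HD m) := inferInstance
noncomputable instance : NormedAlgebra ℂ (HD m) := inferInstance
instance : CompleteSpace (HD m) := isClosed_HD.completeSpace_coe

/-- elements of `HD` -/
noncomputable def mkD {f : ∀ k : I, V (m k) → ℂ} (hf : ∀ k, DifferentiableOn ℂ (f k) (ball 0 1))
    {C : ℝ} (hC : ∀ k, ∀ z ∈ ball (0 : V (m k)) 1, ‖f k z‖ ≤ C) : HD m :=
  ⟨BoundedContinuousFunction.ofNormedAddCommGroup (fun x : Pt m => f x.1 x.2)
    continuous_of_discreteTopology C (fun x => hC x.1 x.2 x.2.2), fun k => ⟨f k, hf k, fun z => rfl⟩⟩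

theorem extD {F G : HD m} (h : ∀ k z, F.1 (⟨k, z⟩ : Pt m) = G.1 ⟨k, z⟩) : F = G := by
  apply Subtype.ext
  ext x
  exact h x.1 x.2

theorem sumD {ι : Type*} (s : Finset ι) (F : ι → HD m) (x : Pt m) :
    (∑ i ∈ s, F i).1 x = ∑ i ∈ s, (F i).1 x := by
  classical
  induction s using Finset.induction_on with
  | empty => rfl
  | insert i s hi ih =>
    rw [Finset.sum_insert hi, Finset.sum_insert hi, ← ih]
    rfl

theorem normD {F : HD m} {C : ℝ} (hC : 0 ≤ C) (h : ∀ x, ‖F.1 x‖ ≤ C) : ‖F‖ ≤ C :=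
  (BoundedContinuousFunction.norm_le hC).2 h

theorem le_normD (F : HD m) (x : Pt m) : ‖F.1 x‖ ≤ ‖F‖ := F.1.norm_coe_le_norm x

theorem char_leD (χ : characterSpace ℂ (HD m)) (F : HD m) : ‖χ F‖ ≤ ‖F‖ := by
  have h := AlgHom.apply_mem_spectrum χ F
  have h2 := spectrum.norm_le_norm_mul_of_mem h
  have h3 : ‖(1 : HD m)‖ ≤ 1 := normD zero_le_one (fun z => by
    change ‖(1 : ℂ)‖ ≤ 1
    simp)
  calc ‖χ F‖ ≤ ‖F‖ * ‖(1 : HD m)‖ := h2
    _ ≤ ‖F‖ * 1 := by gcongr
    _ = ‖F‖ := mul_one _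

/-- constants -/
noncomputable def CD (m : I → ℕ) (c : ℂ) : HD m := algebraMap ℂ (HD m) c

theorem char_CD (χ : characterSpace ℂ (HD m)) (c : ℂ) : χ (CD m c) = c := by
  unfold CD
  exact AlgHomClass.commutes χ c

/-- a family of functions as an element of the algebra -/
noncomputable def ED {f : ∀ k : I, V (m k) → ℂ} (hf : ∀ i, HB (f i)) : HD m :=
  mkD (f := f) (fun i => (hf i).1) (C := 1) (fun i => (hf i).2)

theorem zeroD {ι : Type} [Fintype ι] {F : ∀ i : I, ι → V (m i) → ℂ} (hF : ∀ i j, HB (F i j))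
    (h : ¬ ∃ C : ℝ, ∀ i, Bez (ball (0 : V (m i)) 1) (F i) C) :
    ∃ χ : characterSpace ℂ (HD m), ∀ j, χ (ED (f := fun i => F i j) (fun i => hF i j)) = 0 := by
  by_cases hI : Ideal.span (Set.range fun j => ED (f := fun i => F i j) (fun i => hF i j)) = ⊤
  · exfalso
    apply h
    have h1 : (1 : HD m) ∈
        Ideal.span (Set.range fun j => ED (f := fun i => F i j) (fun i => hF i j)) := by
      rw [hI]; trivial
    obtain ⟨c, hc⟩ := Ideal.mem_span_range_iff_exists_fun.1 h1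
    choose g hg hgc using fun j => (c j).2
    refine ⟨∑ j, ‖c j‖, fun i => ⟨fun j => g j i, fun j => hg j i, fun j z hz => ?_,
      fun z hz => ?_⟩⟩
    · have h2 := hgc j i ⟨z, hz⟩
      have h3 := le_normD (c j) (⟨i, ⟨z, hz⟩⟩ : Pt m)
      rw [h2] at h3
      exact h3.trans (Finset.single_le_sum (f := fun j => ‖c j‖) (fun j _ => norm_nonneg _)
        (Finset.mem_univ j))
    · have h2 : (∑ j, c j * ED (f := fun i => F i j) (fun i => hF i j) : HD m).1
          (⟨i, ⟨z, hz⟩⟩ : Pt m) = 1 := by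
        rw [hc]; rfl
      rw [sumD] at h2
      rw [← h2]
      refine Finset.sum_congr rfl fun j _ => ?_
      change F i j z * g j i z = (c j).1 (⟨i, ⟨z, hz⟩⟩ : Pt m) * F i j z
      rw [hgc j i, mul_comm]
  · obtain ⟨M, hM, hIM⟩ := (Ideal.span (Set.range fun j =>
      ED (f := fun i => F i j) (fun i => hF i j))).exists_le_maximal hI
    exact ⟨M.toCharacterSpace, fun j =>
      M.toCharacterSpace_apply_eq_zero_of_mem (hIM (Ideal.subset_span ⟨j, rfl⟩))⟩

theorem nosolvD {ι : Type} [Fintype ι] {F : ∀ i : I, ι → V (m i) → ℂ} (hF : ∀ i j, HB (F i j))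
    (χ : characterSpace ℂ (HD m)) (h0 : ∀ j, χ (ED (f := fun i => F i j) (fun i => hF i j)) = 0) :
    ¬ ∃ C : ℝ, ∀ i, Bez (ball (0 : V (m i)) 1) (F i) C := by
  classical
  rintro ⟨C, hC⟩
  choose g hg hgb hid using hC
  have h1 : (1 : HD m) = ∑ j, ED (f := fun i => F i j) (fun i => hF i j) *
      mkD (f := fun i => g i j) (fun i => hg i j) (fun i => hgb i j) := by
    apply extD
    intro i z
    rw [sumD]
    exact (hid i z z.2).symm
  have h2 := congrArg χ h1
  rw [map_one, map_sum] at h2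
  have h3 : ∀ j, χ (ED (f := fun i => F i j) (fun i => hF i j) *
      mkD (f := fun i => g i j) (fun i => hg i j) (fun i => hgb i j)) = 0 := by
    intro j
    rw [map_mul, h0 j, zero_mul]
  rw [Finset.sum_congr rfl (fun j _ => h3 j), Finset.sum_const_zero] at h2
  exact one_ne_zero h2

/-- cell theorem for families of different dimensions -/
theorem cell_free_fam {N L : ℕ} {ε Q : ℝ} (hε : 0 < ε) {F : ∀ i : I, Fin N → V (m i) → ℂ}
    (hF : ∀ i j, HB (F i j)) {u : ∀ i : I, Fin L → V (m i) → ℂ} (hu : ∀ i l, One (u i l))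
    (hloc : ∀ i, ∀ z₀ ∈ ball (0 : V (m i)) 1,
      Bez {z | z ∈ ball (0 : V (m i)) 1 ∧ ∀ l, ‖u i l z - u i l z₀‖ < ε} (F i) Q) :
    ∃ C : ℝ, ∀ i, Bez (ball (0 : V (m i)) 1) (F i) C := by
  classical
  by_contra hns
  obtain ⟨χ, hχ⟩ := zeroD hF hns
  have huB : ∀ i l, HB (u i l) := fun i l => ⟨(hu i l).diff, (hu i l).bd⟩
  obtain ⟨c, hc⟩ : ∃ c : Fin L → ℂ, ∀ l, c l = χ (ED (f := fun i => u i l) (fun i => huB i l)) :=
    ⟨_, fun l => rfl⟩
  have hc1 : ∀ l, ‖c l‖ ≤ 1 := by
    intro l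
    rw [hc l]
    refine (char_leD χ _).trans (normD zero_le_one fun x => ?_)
    exact (huB x.1 l).2 x.2 x.2.2
  obtain ⟨C, HC⟩ := loc_one L N (ε := ε / 2) (Q := Q) (by positivity)
  have hsol : ∀ i, Bez (ball 0 1)
      (Sum.elim (fun (k : Fin L) z => (u i k z - c k) / 2) (F i)) C := by
    intro i
    refine HC (V (m i)) (u i) c (hu i) hc1 (F i) (fun j => (hF i j).1) (fun j => (hF i j).2) ?_
    intro z₀ hz₀ hz₀c
    refine (hloc i z₀ hz₀).mono ?_ le_rfl
    rintro z ⟨hz, hzc⟩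
    refine ⟨hz, fun l => ?_⟩
    have h8 : u i l z - u i l z₀ = (u i l z - c l) - (u i l z₀ - c l) := by ring
    rw [h8]
    have h9 := norm_sub_le (u i l z - c l) (u i l z₀ - c l)
    have h6 := hzc l
    have h7 := hz₀c l
    linarith
  have hFB : ∀ i (o : Fin L ⊕ Fin N),
      HB (Sum.elim (fun (k : Fin L) z => (u i k z - c k) / 2) (F i) o) := by
    intro i o
    rcases o with k | j
    · refine ⟨?_, fun z hz => ?_⟩
      · have h6 := (hu i k).diff
        simp only [div_eq_mul_inv]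
        exact (h6.sub_const _).mul_const _
      · change ‖(u i k z - c k) / 2‖ ≤ 1
        rw [norm_div, show ‖(2 : ℂ)‖ = 2 by norm_num, div_le_one (by norm_num)]
        have h6 := norm_sub_le (u i k z) (c k)
        have h7 := (hu i k).bd z hz
        have h8 := hc1 k
        linarith
    · exact hF i j
  refine nosolvD (F := fun i => Sum.elim (fun (k : Fin L) z => (u i k z - c k) / 2) (F i))
    hFB χ ?_ ⟨C, hsol⟩
  intro o
  rcases o with l | j
  · have h3 : ED (f := fun (i : I) => Sum.elim (fun (k : Fin L) z => (u i k z - c k) / 2)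
        (F i) (Sum.inl l)) (fun i => hFB i (Sum.inl l)) =
        (CD m (1/2) * (ED (f := fun i => u i l) (fun i => huB i l) - CD m (c l)) : HD m) := by
      apply extD
      intro x z
      change (u x l (z : V (m x)) - c l) / 2 = (1/2 : ℂ) * (u x l (z : V (m x)) - c l)
      ring
    rw [h3, map_mul, map_sub, char_CD, char_CD, ← hc l, sub_self, mul_zero]
  · exact hχ j

/-- **Cell theorem**, with constants independent of the dimension. -/
theorem cell_free (L N : ℕ) {ε Q : ℝ} (hε : 0 < ε) : ∃ C : ℝ, ∀ (n : ℕ) (F : Fin N → V n → ℂ)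
    (u : Fin L → V n → ℂ), (∀ j, HB (F j)) → (∀ l, One (u l)) →
    (∀ z₀ ∈ ball (0 : V n) 1,
      Bez {z | z ∈ ball (0 : V n) 1 ∧ ∀ l, ‖u l z - u l z₀‖ < ε} F Q) →
    Bez (ball (0 : V n) 1) F C := by
  obtain ⟨C, hC⟩ := cell_free_fam (I := {x : (n : ℕ) × ((Fin N → V n → ℂ) × (Fin L → V n → ℂ)) //
      (∀ j, HB (x.2.1 j)) ∧ (∀ l, One (x.2.2 l)) ∧ ∀ z₀ ∈ ball (0 : V x.1) 1,
        Bez {z | z ∈ ball (0 : V x.1) 1 ∧ ∀ l, ‖x.2.2 l z - x.2.2 l z₀‖ < ε} x.2.1 Q})
    (m := fun x => x.1.1) (N := N) (L := L) (Q := Q) hε (F := fun x => x.1.2.1)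
    (fun x => x.2.1) (u := fun x => x.1.2.2) (fun x => x.2.2.1) (fun x => x.2.2.2)
  exact ⟨C, fun n F u h1 h2 h3 => hC ⟨⟨n, (F, u)⟩, h1, h2, h3⟩⟩

/-- if all functions but one have small oscillation on a set, the Bezout equation is solvable there -/
theorem osc_bez {n N : ℕ} {F : Fin N → V n → ℂ} (hF : ∀ j, HB (F j)) {δ : ℝ} (hδ : 0 < δ)
    (hlow : ∀ z ∈ ball (0 : V n) 1, δ ≤ ∑ j, ‖F j z‖) {S : Set (V n)} (hS : S ⊆ ball 0 1)
    {z₀ : V n} (hz₀ : z₀ ∈ ball (0 : V n) 1) (j₀ : Fin N)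
    (hosc : ∀ j, j ≠ j₀ → ∀ z ∈ S, ‖F j z - F j z₀‖ ≤ δ / (4 * N)) :
    Bez S F (4 * N / δ) := by
  classical
  have hN : (1 : ℝ) ≤ N := by exact_mod_cast (Nat.lt_of_le_of_lt (Nat.zero_le _) j₀.2)
  obtain ⟨η, hη⟩ : ∃ η : ℝ, η = δ / (4 * N) := ⟨_, rfl⟩
  have hη0 : 0 < η := by rw [hη]; positivity
  have hηN : 4 * (N * η) = δ := by rw [hη]; field_simp
  rw [← hη] at hosc
  -- one function bounded from below by `η`
  have main : ∀ j, (∀ z ∈ S, η ≤ ‖F j z‖) → Bez S F (4 * N / δ) := by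
    intro j hj
    have hne : ∀ z ∈ S, F j z ≠ 0 := by
      intro z hz h0
      have := hj z hz
      rw [h0, norm_zero] at this
      linarith
    refine ⟨fun i z => if i = j then (F j z)⁻¹ else 0, fun i => ?_, fun i z hz => ?_,
      fun z hz => ?_⟩
    · by_cases hi : i = j
      · simp only [if_pos hi]
        exact (((hF j).1).mono hS).fun_inv hne
      · simp only [if_neg hi]
        exact differentiableOn_const _
    · beta_reduce
      by_cases hi : i = j
      · rw [if_pos hi, norm_inv]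
        have h1 : 4 * (N : ℝ) / δ = η⁻¹ := by rw [hη, inv_div]
        rw [h1]
        exact inv_anti₀ hη0 (hj z hz)
      · rw [if_neg hi, norm_zero]
        positivity
    · simp only [mul_ite, mul_zero]
      rw [Finset.sum_ite_eq' Finset.univ j, if_pos (Finset.mem_univ _)]
      exact mul_inv_cancel₀ (hne z hz)
  by_cases hex : ∃ j, j ≠ j₀ ∧ 2 * η ≤ ‖F j z₀‖
  · obtain ⟨j, hj, hj2⟩ := hex
    refine main j (fun z hz => ?_)
    have h1 := hosc j hj z hz
    have h2 := norm_sub_norm_le (F j z₀) (F j z)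
    rw [norm_sub_rev] at h2
    linarith
  · push Not at hex
    refine main j₀ (fun z hz => ?_)
    have h1 := hlow z (hS hz)
    rw [← Finset.add_sum_erase Finset.univ _ (Finset.mem_univ j₀)] at h1
    have h2 : ∀ j ∈ Finset.univ.erase j₀, ‖F j z‖ ≤ 3 * η := by
      intro j hj
      have hj' := Finset.ne_of_mem_erase hj
      have h3 := hosc j hj' z hz
      have h4 := hex j hj'
      have h5 := norm_sub_norm_le (F j z) (F j z₀)
      linarith
    have h3 := Finset.sum_le_sum h2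
    rw [Finset.sum_const, nsmul_eq_mul, Finset.card_erase_of_mem (Finset.mem_univ _),
      Finset.card_univ, Fintype.card_fin] at h3
    have h4 : ((N - 1 : ℕ) : ℝ) * (3 * η) ≤ (N - 1) * (3 * η) := by
      have h5 : ((N - 1 : ℕ) : ℝ) = (N : ℝ) - 1 := by
        rw [Nat.cast_sub (by exact_mod_cast hN), Nat.cast_one]
      rw [h5]
    nlinarith

end Pool.Agent.Helper85K9.Cor
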