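import Mathlib
import Pool.Agent.Helper85K9.Cor.Free

/-!
Localisation to cells near the boundary points.
-/

set_option autoImplicit false

open Metric Set Filter Topology

namespace Pool.Agent.Helper85K9.Cor

open Pool.Agent.TH310.Cor (V HB Solv)
open Pool.Agent.Y263.LF (Bez Bez.mono)

/-- **Cell theorem near boundary points.** -/
theorem cell_local (n N : ℕ) {δ : ℝ} (hδ : 0 < δ) (L : V n → ℕ) (ρ ε Q : V n → ℝ)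
    (hρ : ∀ p, 0 < ρ p) (hε : ∀ p, 0 < ε p) : ∃ C : ℝ, ∀ F : Fin N → V n → ℂ, (∀ j, HB (F j)) →
    (∀ z ∈ ball (0 : V n) 1, δ ≤ ∑ j, ‖F j z‖) →
    (∀ p : V n, ‖p‖ = 1 → ∃ u : Fin (L p) → V n → ℂ, (∀ l, One (u l)) ∧
      ∀ z₀ ∈ ball (0 : V n) 1 ∩ ball p (ρ p),
        Bez {z | z ∈ ball (0 : V n) 1 ∩ ball p (ρ p) ∧ ∀ l, ‖u l z - u l z₀‖ < ε p} F (Q p)) →
    Bez (ball (0 : V n) 1) F C := by
  obtain ⟨C, hC⟩ := cell_fam (m := n) (I := {F : Fin N → V n → ℂ // (∀ j, HB (F j)) ∧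
      (∀ z ∈ ball (0 : V n) 1, δ ≤ ∑ j, ‖F j z‖) ∧
      (∀ p : V n, ‖p‖ = 1 → ∃ u : Fin (L p) → V n → ℂ, (∀ l, One (u l)) ∧
        ∀ z₀ ∈ ball (0 : V n) 1 ∩ ball p (ρ p),
          Bez {z | z ∈ ball (0 : V n) 1 ∩ ball p (ρ p) ∧ ∀ l, ‖u l z - u l z₀‖ < ε p} F (Q p))})
    (N := N) (F := fun x => x.1) (fun x => x.2.1) hδ (fun x => x.2.2.1)
    (fun p hp => ⟨L p, ρ p, ε p, Q p, hρ p, hε p, fun x => x.2.2.2 p hp⟩)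
  exact ⟨C, fun F h1 h2 h3 => hC ⟨F, h1, h2, h3⟩⟩

/-- One arbitrary function in each cell. -/
theorem osc_local (n N : ℕ) {δ : ℝ} (hδ : 0 < δ) (L : V n → ℕ) (ρ ε : V n → ℝ)
    (hρ : ∀ p, 0 < ρ p) (hε : ∀ p, 0 < ε p) : ∃ C : ℝ, ∀ F : Fin N → V n → ℂ, (∀ j, HB (F j)) →
    (∀ z ∈ ball (0 : V n) 1, δ ≤ ∑ j, ‖F j z‖) →
    (∀ p : V n, ‖p‖ = 1 → ∃ u : Fin (L p) → V n → ℂ, (∀ l, One (u l)) ∧
      ∀ z₀ ∈ ball (0 : V n) 1 ∩ ball p (ρ p), ∃ j₀, ∀ j, j ≠ j₀ →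
        ∀ z ∈ ball (0 : V n) 1 ∩ ball p (ρ p), (∀ l, ‖u l z - u l z₀‖ < ε p) →
          ‖F j z - F j z₀‖ ≤ δ / (4 * N)) →
    Bez (ball (0 : V n) 1) F C := by
  obtain ⟨C, hC⟩ := cell_local n N hδ L ρ ε (fun _ => 4 * N / δ) hρ hε
  refine ⟨C, fun F h1 h2 h3 => hC F h1 h2 (fun p hp => ?_)⟩
  obtain ⟨u, hu, h4⟩ := h3 p hp
  refine ⟨u, hu, fun z₀ hz₀ => ?_⟩
  obtain ⟨j₀, hj₀⟩ := h4 z₀ hz₀
  exact osc_bez h1 hδ h2 (fun z hz => hz.1.1) hz₀.1 j₀ (fun j hj z hz => hj₀ j hj z hz.1 hz.2)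

/-- One arbitrary function in each cell, constants independent of the dimension. -/
theorem osc_free (L N : ℕ) {ε δ : ℝ} (hε : 0 < ε) (hδ : 0 < δ) : ∃ C : ℝ, ∀ (n : ℕ)
    (F : Fin N → V n → ℂ) (u : Fin L → V n → ℂ), (∀ j, HB (F j)) → (∀ l, One (u l)) →
    (∀ z ∈ ball (0 : V n) 1, δ ≤ ∑ j, ‖F j z‖) →
    (∀ z₀ ∈ ball (0 : V n) 1, ∃ j₀, ∀ j, j ≠ j₀ → ∀ z ∈ ball (0 : V n) 1,
      (∀ l, ‖u l z - u l z₀‖ < ε) → ‖F j z - F j z₀‖ ≤ δ / (4 * N)) →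
    Bez (ball (0 : V n) 1) F C := by
  obtain ⟨C, hC⟩ := cell_free L N (ε := ε) (Q := 4 * N / δ) hε
  refine ⟨C, fun n F u h1 h2 h3 h4 => hC n F u h1 h2 (fun z₀ hz₀ => ?_)⟩
  obtain ⟨j₀, hj₀⟩ := h4 z₀ hz₀
  exact osc_bez h1 hδ h3 (fun z hz => hz.1) hz₀ j₀ (fun j hj z hz => hj₀ j hj z hz.1 hz.2)

end Pool.Agent.Helper85K9.Cor
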