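import Mathlib
import Pool.Agent.Helper85K9.Cor.Local
import Pool.Agent.TH310.Cor.Whit2
import Pool.Agent.W732.Cor.All

/-!
The cell theorem near one boundary point, and the combination with the Whitney localisation.
-/

set_option autoImplicit false

open Metric Set Filter Topology

namespace Pool.Agent.Helper85K9.Cor

open Pool.Agent.TH310.Cor
open Pool.Agent.Y263.LF (Bez Bez.mono)
open Pool.Agent.W732.Cor (mv)

/-- Cell theorem at one boundary point. -/
theorem cell_at {m : ℕ} {I : Type} {N : ℕ} {F : I → Fin N → V m → ℂ} (hF : ∀ i j, HB (F i j))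
    {δ : ℝ} (hδ : 0 < δ) (hlow : ∀ i, ∀ z ∈ ball (0 : V m) 1, δ ≤ ∑ j, ‖F i j z‖)
    {q : V m} (hq : ‖q‖ = 1) {L : ℕ} {ρ ε Q : ℝ} (hρ : 0 < ρ) (hε : 0 < ε)
    (h : ∀ i, ∃ u : Fin L → V m → ℂ, (∀ l, One (u l)) ∧ ∀ z₀ ∈ ball (0 : V m) 1 ∩ ball q ρ,
      Bez {z | z ∈ ball (0 : V m) 1 ∩ ball q ρ ∧ ∀ l, ‖u l z - u l z₀‖ < ε} (F i) Q) :
    SolvL F q := by
  classical
  have hF' : ∀ i (j : Fin (N + 1)), HB ((Fin.cons (Lo q) (F i) : Fin (N + 1) → V m → ℂ) j) := by
    intro i j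
    refine Fin.cases ?_ (fun j => ?_) j
    · exact HB_Lo hq
    · exact hF i j
  have h1 : Solv (fun i => (Fin.cons (Lo q) (F i) : Fin (N + 1) → V m → ℂ)) := by
    refine cell_fam hF' hδ ?_ ?_
    · intro i z hz
      rw [Fin.sum_univ_succ]
      simp only [Fin.cons_zero, Fin.cons_succ]
      have h2 := hlow i z hz
      have h3 := norm_nonneg (Lo q z)
      linarith
    · intro p hp
      by_cases hpq : p = q
      · refine ⟨L, ρ, ε, max Q 0, hρ, hε, fun i => ?_⟩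
        obtain ⟨u, hu, h2⟩ := h i
        refine ⟨u, hu, fun z₀ hz₀ => ?_⟩
        rw [hpq] at hz₀ ⊢
        obtain ⟨g, g1, g2, g3⟩ := h2 z₀ hz₀
        refine ⟨Fin.cons (fun _ => 0) g, fun j => ?_, fun j z hz => ?_, fun z hz => ?_⟩
        · refine Fin.cases ?_ (fun j => ?_) j
          · exact differentiableOn_const _
          · exact g1 j
        · refine Fin.cases ?_ (fun j => ?_) j
          · simp
          · exact (g2 j z hz).trans (le_max_left _ _)
        · rw [Fin.sum_univ_succ]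
          simp only [Fin.cons_zero, Fin.cons_succ, mul_zero, zero_add]
          exact g3 z hz
      · obtain ⟨r, hr⟩ : ∃ r : ℝ, r = ‖p - q‖ / 2 := ⟨_, rfl⟩
        have hr0 : 0 < r := by
          rw [hr]
          have h2 : 0 < ‖p - q‖ := norm_pos_iff.2 (sub_ne_zero.2 hpq)
          positivity
        have hlo : ∀ z ∈ ball (0 : V m) 1 ∩ ball p r, r ^ 2 / 4 ≤ ‖Lo q z‖ := by
          rintro z ⟨hz, hzp⟩
          refine Lo_ge hq hz hr0.le ?_
          rw [mem_ball, dist_eq_norm] at hzp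
          have h2 : ‖p - q‖ ≤ ‖z - q‖ + ‖z - p‖ := by
            have h3 : p - q = (z - q) - (z - p) := by abel
            rw [h3]
            exact norm_sub_le _ _
          have h3 : ‖p - q‖ = 2 * r := by rw [hr]; ring
          linarith
        have hne : ∀ z ∈ ball (0 : V m) 1 ∩ ball p r, Lo q z ≠ 0 := by
          intro z hz h3
          have h4 := hlo z hz
          rw [h3, norm_zero] at h4
          have : 0 < r ^ 2 / 4 := by positivity
          linarith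
        refine ⟨0, r, 1, (r ^ 2 / 4)⁻¹, hr0, one_pos, fun i => ⟨Fin.elim0, fun l => l.elim0,
          fun z₀ hz₀ => ?_⟩⟩
        have hS : {z | z ∈ ball (0 : V m) 1 ∩ ball p r ∧
            ∀ l : Fin 0, ‖(Fin.elim0 l : V m → ℂ) z - (Fin.elim0 l : V m → ℂ) z₀‖ < 1} ⊆
            ball (0 : V m) 1 ∩ ball p r := fun z hz => hz.1
        refine ⟨Fin.cons (fun z => (Lo q z)⁻¹) (fun _ _ => 0), fun j => ?_, fun j z hz => ?_,
          fun z hz => ?_⟩
        · refine Fin.cases ?_ (fun j => ?_) j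
          · exact ((HB_Lo hq).1.mono (hS.trans inter_subset_left)).inv (fun z hz => hne z (hS hz))
          · exact differentiableOn_const _
        · refine Fin.cases ?_ (fun j => ?_) j
          · change ‖(Lo q z)⁻¹‖ ≤ _
            rw [norm_inv]
            exact inv_anti₀ (by positivity) (hlo z (hS hz))
          · simp only [Fin.cons_succ, norm_zero]
            positivity
        · rw [Fin.sum_univ_succ]
          simp only [Fin.cons_zero, Fin.cons_succ, mul_zero, Finset.sum_const_zero, add_zero]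
          exact mul_inv_cancel₀ (hne z (hS hz))
  obtain ⟨C, hC⟩ := h1
  obtain ⟨C', hC'⟩ : ∃ C', C' = max C 1 := ⟨_, rfl⟩
  have hC'1 : 1 ≤ C' := by rw [hC']; exact le_max_right _ _
  have hCC' : C ≤ C' := by rw [hC']; exact le_max_left _ _
  refine ⟨2 * C', 1 / C', by positivity, fun i => ?_⟩
  obtain ⟨g, h1, h2, h3⟩ := hC i
  have hlo : ∀ z ∈ ball (0 : V m) 1 ∩ ball q (1 / C'), 1 / 2 ≤ ‖1 - Lo q z * g 0 z‖ := by
    rintro z ⟨hz, hzq⟩
    rw [mem_ball, dist_eq_norm] at hzq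
    have h4 : ‖Lo q z‖ ≤ 1 / C' / 2 := by
      unfold Lo
      rw [norm_div]
      have h4 : ‖(2 : ℂ)‖ = 2 := by norm_num
      rw [h4]
      have h5 : (1 : ℂ) - inner ℂ q z = inner ℂ q (q - z) := by
        rw [inner_sub_right, inner_self_eq_norm_sq_to_K, hq]
        norm_num
      have h6 : ‖(1 : ℂ) - inner ℂ q z‖ ≤ ‖z - q‖ := by
        rw [h5]
        refine (norm_inner_le_norm _ _).trans ?_
        rw [hq, one_mul, norm_sub_rev]
      linarith
    have h5 : ‖Lo q z * g 0 z‖ ≤ 1 / 2 := by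
      rw [norm_mul]
      calc ‖Lo q z‖ * ‖g 0 z‖ ≤ (1 / C' / 2) * C' := by
            gcongr
            exact (h2 _ z hz).trans hCC'
        _ = 1 / 2 := by field_simp
    have h6 := norm_sub_norm_le (1 : ℂ) (Lo q z * g 0 z)
    rw [norm_one] at h6
    linarith
  have hsb : ball (0 : V m) 1 ∩ ball q (1 / C') ⊆ ball (0 : V m) 1 := inter_subset_left
  have hne : ∀ z ∈ ball (0 : V m) 1 ∩ ball q (1 / C'), 1 - Lo q z * g 0 z ≠ 0 := by
    intro z hz h4
    have h5 := hlo z hz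
    rw [h4, norm_zero] at h5
    norm_num at h5
  refine ⟨fun j z => g j.succ z * (1 - Lo q z * g 0 z)⁻¹, ?_, ?_, ?_⟩
  · intro j
    have h4 : DifferentiableOn ℂ (fun z => 1 - Lo q z * g 0 z)
        (ball (0 : V m) 1 ∩ ball q (1 / C')) := by
      have h5 : DifferentiableOn ℂ (fun z => Lo q z * g 0 z) (ball (0 : V m) 1) :=
        (HB_Lo hq).1.mul (h1 _)
      exact (h5.mono hsb).const_sub 1
    exact ((h1 _).mono hsb).mul (h4.inv hne)
  · intro j z hz
    rw [norm_mul, norm_inv]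
    have h4 := hlo z hz
    have h5 : ‖1 - Lo q z * g 0 z‖⁻¹ ≤ 2 := by
      rw [inv_le_comm₀ (by linarith) (by norm_num)]
      linarith
    calc ‖g j.succ z‖ * ‖1 - Lo q z * g 0 z‖⁻¹ ≤ C' * 2 := by
          gcongr
          exact (h2 _ z hz.1).trans hCC'
      _ = 2 * C' := by ring
  · intro z hz
    have h4 := h3 z hz.1
    rw [Fin.sum_univ_succ] at h4
    simp only [Fin.cons_zero, Fin.cons_succ] at h4
    have h5 : ∑ j, F i j z * g j.succ z = 1 - Lo q z * g 0 z := by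
      rw [← h4]
      ring
    have h6 : ∑ j, F i j z * (g j.succ z * (1 - Lo q z * g 0 z)⁻¹) =
        (∑ j, F i j z * g j.succ z) * (1 - Lo q z * g 0 z)⁻¹ := by
      rw [Finset.sum_mul]
      exact Finset.sum_congr rfl fun j _ => by ring
    rw [h6, h5]
    exact mul_inv_cancel₀ (hne z hz)

/-- **Cells at two scales**, for families. -/
theorem two_scale_fam {m : ℕ} {I : Type} {N : ℕ} {F : I → Fin N → V m → ℂ}
    (hF : ∀ i j, HB (F i j)) {δ : ℝ} (hδ : 0 < δ)
    (hlow : ∀ i, ∀ z ∈ ball (0 : V m) 1, δ ≤ ∑ j, ‖F i j z‖)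
    (hloc : ∀ p : V m, ‖p‖ = 1 → ∀ q : V m, ‖q‖ = 1 → (inner ℂ p q : ℂ) = 0 →
      ∃ (L : ℕ) (κ ρ ε Q : ℝ), 0 < κ ∧ 0 < ρ ∧ 0 < ε ∧ ∀ i, ∀ a : ℂ, ‖a‖ < 1 → ‖1 - a‖ < κ →
        ∃ u : Fin L → V m → ℂ, (∀ l, One (u l)) ∧ ∀ z₀ ∈ ball (0 : V m) 1 ∩ ball q ρ,
          Bez {z | z ∈ ball (0 : V m) 1 ∩ ball q ρ ∧ ∀ l, ‖u l z - u l z₀‖ < ε}
            (fun j z => F i j (mv p a z)) Q) :
    Solv F := by
  have hmv := Pool.Agent.W732.Cor.t_mv
  have hball := Pool.Agent.W732.Cor.t_ball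
  have key : ∀ p : V m, ‖p‖ = 1 → SolvL F p := by
    intro p hp
    refine whit2 hmv hball hp hF hδ one_pos (fun i z hz => hlow i z hz.1) fun q hq hpq => ?_
    obtain ⟨L, κ, ρ, ε, Q, hκ, hρ, hε, h1⟩ := hloc p hp q hq hpq
    refine ⟨κ, hκ, cell_at ?_ hδ ?_ hq (L := L) (Q := Q) hρ hε ?_⟩
    · intro x j
      exact (hF x.1 j).comp (aut_mv hmv hp x.2.2.1)
    · intro x z hz
      exact hlow x.1 _ ((aut_mv hmv hp x.2.2.1).m1 hz)
    · intro x
      exact h1 x.1 x.2 (mem_ball_zero_iff.1 x.2.2.1) x.2.2.2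
  refine cell_fam hF hδ hlow fun p hp => ?_
  obtain ⟨C, ρ, hρ, h1⟩ := key p hp
  refine ⟨0, ρ, 1, C, hρ, one_pos, fun i => ⟨Fin.elim0, fun l => l.elim0, fun z₀ hz₀ => ?_⟩⟩
  have h2 : Bez (ball (0 : V m) 1 ∩ ball p ρ) (F i) C := h1 i
  exact h2.mono (fun z hz => hz.1) le_rfl

end Pool.Agent.Helper85K9.Cor
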