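import Mathlib
import Pool.Agent.Helper85K9.Cor.At

/-!
The maps `mv p a` outside of the ball; functions with affine fibres composed with `mv p a`.
-/

set_option autoImplicit false

open Metric Set Filter Topology

namespace Pool.Agent.Helper85K9.Cor

open Pool.Agent.TH310.Cor
open Pool.Agent.Y263.GF (AF)
open Pool.Agent.Y263.LF (Bez Bez.mono)
open Pool.Agent.W732.Cor (mv)

variable {m : ℕ}

theorem conj_norm_sq (a : ℂ) : a * starRingEnd ℂ a = ((‖a‖ ^ 2 : ℝ) : ℂ) := by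
  rw [Complex.mul_conj, Complex.normSq_eq_norm_sq]

theorem den_ne {a w : ℂ} (ha : ‖a‖ < 1) (hw : ‖w‖ < 1) : 1 + starRingEnd ℂ a * w ≠ 0 := by
  intro h
  have h1 : starRingEnd ℂ a * w = -1 := by linear_combination h
  have h2 : ‖a‖ * ‖w‖ = 1 := by
    have h3 := congrArg norm h1
    rw [norm_mul, RCLike.norm_conj, norm_neg, norm_one] at h3
    exact h3
  nlinarith [norm_nonneg a, norm_nonneg w]

/-- the linear part of `mv p a` -/
noncomputable def nu (p : V m) (a : ℂ) (z : V m) : V m :=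
  ((inner ℂ p z : ℂ) + a) • p + ((√(1 - ‖a‖ ^ 2) : ℝ) : ℂ) • (z - (inner ℂ p z : ℂ) • p)

theorem mv_eq (p : V m) (a : ℂ) (z : V m) :
    mv p a z = (1 + starRingEnd ℂ a * inner ℂ p z)⁻¹ • nu p a z := by
  unfold mv nu
  rw [one_div]

theorem inner_nu {p : V m} (hp : ‖p‖ = 1) (a : ℂ) (z : V m) :
    (inner ℂ p (nu p a z) : ℂ) = inner ℂ p z + a := by
  unfold nu
  rw [inner_add_right, inner_smul_right, inner_smul_right, inner_sub_right, inner_smul_right,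
    inner_self_eq_norm_sq_to_K, hp]
  simp

theorem inner_mv {p : V m} (hp : ‖p‖ = 1) (a : ℂ) (z : V m) :
    (inner ℂ p (mv p a z) : ℂ) =
      (inner ℂ p z + a) / (1 + starRingEnd ℂ a * inner ℂ p z) := by
  rw [mv_eq, inner_smul_right, inner_nu hp, div_eq_inv_mul]

theorem norm_nu {p : V m} (hp : ‖p‖ = 1) {a : ℂ} (ha : ‖a‖ < 1) (z : V m) :
    ‖nu p a z‖ ^ 2 = ‖(inner ℂ p z : ℂ) + a‖ ^ 2 + (1 - ‖a‖ ^ 2) *
      (‖z‖ ^ 2 - ‖(inner ℂ p z : ℂ)‖ ^ 2) := by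
  obtain ⟨y, hy⟩ : ∃ y : V m, y = z - (inner ℂ p z : ℂ) • p := ⟨_, rfl⟩
  have hpy : (inner ℂ p y : ℂ) = 0 := by
    rw [hy, inner_sub_right, inner_smul_right, inner_self_eq_norm_sq_to_K, hp]
    simp
  have h1 : ∀ (c t : ℂ), ‖c • p + t • y‖ ^ 2 = ‖c‖ ^ 2 + ‖t‖ ^ 2 * ‖y‖ ^ 2 := by
    intro c t
    have h2 : (inner ℂ (c • p) (t • y) : ℂ) = 0 := by
      rw [inner_smul_left, inner_smul_right, hpy]
      simp
    rw [sq, norm_add_sq_eq_norm_sq_add_norm_sq_of_inner_eq_zero _ _ h2, norm_smul, norm_smul, hp]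
    ring
  have h3 : z = (inner ℂ p z : ℂ) • p + (1 : ℂ) • y := by
    rw [hy]
    module
  have h4 : ‖z‖ ^ 2 = ‖(inner ℂ p z : ℂ)‖ ^ 2 + ‖y‖ ^ 2 := by
    have h5 := h1 (inner ℂ p z) 1
    rw [← h3] at h5
    rw [h5]
    simp
  have h6 : ‖((√(1 - ‖a‖ ^ 2) : ℝ) : ℂ)‖ ^ 2 = 1 - ‖a‖ ^ 2 := by
    rw [Complex.norm_real, Real.norm_of_nonneg (Real.sqrt_nonneg _), Real.sq_sqrt]
    nlinarith [norm_nonneg a]
  unfold nu
  rw [← hy, h1, h6, h4]
  ring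

/-- the two identities for `mv p a` -/
theorem mv_ids {p : V m} (hp : ‖p‖ = 1) {a : ℂ} (ha : ‖a‖ < 1) {z : V m}
    (hz : ‖(inner ℂ p z : ℂ)‖ < 1) :
    ‖mv p a z‖ ^ 2 - 1 = (1 - ‖a‖ ^ 2) * (‖z‖ ^ 2 - 1) /
      ‖1 + starRingEnd ℂ a * inner ℂ p z‖ ^ 2 ∧
    1 - ‖(inner ℂ p (mv p a z) : ℂ)‖ ^ 2 = (1 - ‖a‖ ^ 2) * (1 - ‖(inner ℂ p z : ℂ)‖ ^ 2) /
      ‖1 + starRingEnd ℂ a * inner ℂ p z‖ ^ 2 := by
  obtain ⟨w, hw⟩ : ∃ w : ℂ, w = inner ℂ p z := ⟨_, rfl⟩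
  rw [← hw] at hz ⊢
  have hne := den_ne ha hz
  have hd : 0 < ‖1 + starRingEnd ℂ a * w‖ ^ 2 := by
    have := norm_pos_iff.2 hne
    positivity
  have hkey : ‖w + a‖ ^ 2 = ‖1 + starRingEnd ℂ a * w‖ ^ 2 - (1 - ‖a‖ ^ 2) * (1 - ‖w‖ ^ 2) := by
    rw [← Complex.normSq_eq_norm_sq, ← Complex.normSq_eq_norm_sq, ← Complex.normSq_eq_norm_sq,
      ← Complex.normSq_eq_norm_sq]
    simp only [Complex.normSq_apply, Complex.add_re, Complex.add_im, Complex.one_re,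
      Complex.one_im, Complex.mul_re, Complex.mul_im, Complex.conj_re, Complex.conj_im]
    ring
  constructor
  · rw [mv_eq, norm_smul, mul_pow, norm_nu hp ha, ← hw, norm_inv, hkey]
    field_simp
    ring
  · rw [inner_mv hp, ← hw, norm_div, div_pow, hkey]
    field_simp
    ring

theorem mv_diffOn {p : V m} {a : ℂ} (ha : ‖a‖ < 1) {S : Set (V m)}
    (hS : ∀ z ∈ S, ‖(inner ℂ p z : ℂ)‖ < 1) : DifferentiableOn ℂ (mv p a) S := by
  have hi : Differentiable ℂ (fun z : V m => (inner ℂ p z : ℂ)) := (innerSL ℂ p).differentiable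
  have h1 : (mv p a) = fun z => (1 + starRingEnd ℂ a * inner ℂ p z)⁻¹ • nu p a z := by
    funext z
    exact mv_eq p a z
  rw [h1]
  have h2 : Differentiable ℂ (nu p a) := by
    unfold nu
    exact ((hi.add_const a).smul_const p).fun_add
      ((differentiable_fun_id.fun_sub (hi.smul_const p)).fun_const_smul _)
  have h3 : DifferentiableOn ℂ (fun z : V m => (1 + starRingEnd ℂ a * inner ℂ p z)⁻¹) S := by
    refine DifferentiableOn.inv ?_ (fun z hz => den_ne ha (hS z hz))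
    exact ((hi.const_mul _).const_add 1).differentiableOn
  exact h3.smul h2.differentiableOn

theorem mv_lt {p : V m} (hp : ‖p‖ = 1) {a : ℂ} (ha : ‖a‖ < 1) {z : V m}
    (hz : ‖(inner ℂ p z : ℂ)‖ < 1) : ‖(inner ℂ p (mv p a z) : ℂ)‖ < 1 := by
  have h1 := (mv_ids hp ha hz).2
  have h2 : 0 < (1 - ‖a‖ ^ 2) * (1 - ‖(inner ℂ p z : ℂ)‖ ^ 2) /
      ‖1 + starRingEnd ℂ a * inner ℂ p z‖ ^ 2 := by
    have h3 := norm_pos_iff.2 (den_ne ha hz)
    have h4 : 0 < 1 - ‖a‖ ^ 2 := by nlinarith [norm_nonneg a]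
    have h5 : 0 < 1 - ‖(inner ℂ p z : ℂ)‖ ^ 2 := by
      nlinarith [norm_nonneg (inner ℂ p z : ℂ)]
    positivity
  nlinarith [norm_nonneg (inner ℂ p (mv p a z) : ℂ)]

/-- differences and derivatives of `mv p a` are proportional -/
theorem mv_sub {p : V m} {a : ℂ} (ha : ‖a‖ < 1) {z z' : V m} (hz : ‖(inner ℂ p z : ℂ)‖ < 1)
    (hz' : ‖(inner ℂ p z' : ℂ)‖ < 1) :
    ∃ c : ℂ, c ≠ 0 ∧ mv p a z' - mv p a z = c • fderiv ℂ (mv p a) z (z' - z) := by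
  have hd := den_ne ha hz
  have hd' := den_ne ha hz'
  refine ⟨(1 + starRingEnd ℂ a * inner ℂ p z) / (1 + starRingEnd ℂ a * inner ℂ p z'),
    div_ne_zero hd hd', ?_⟩
  -- the derivative
  have hi : HasFDerivAt (fun z : V m => (inner ℂ p z : ℂ)) (innerSL ℂ p) z :=
    (innerSL ℂ p).hasFDerivAt
  have hden : HasFDerivAt (fun z : V m => 1 + starRingEnd ℂ a * (inner ℂ p z : ℂ))
      (starRingEnd ℂ a • innerSL ℂ p) z := (hi.const_mul _).const_add 1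
  have hinv : HasFDerivAt (fun z : V m => (1 + starRingEnd ℂ a * (inner ℂ p z : ℂ))⁻¹)
      (-((1 + starRingEnd ℂ a * (inner ℂ p z : ℂ)) ^ 2)⁻¹ • (starRingEnd ℂ a • innerSL ℂ p)) z :=
    (hasDerivAt_inv hd).comp_hasFDerivAt z hden
  obtain ⟨N', hN'⟩ : ∃ N' : V m →L[ℂ] V m, N' = (innerSL ℂ p).smulRight p +
      ((√(1 - ‖a‖ ^ 2) : ℝ) : ℂ) • (ContinuousLinearMap.id ℂ (V m) - (innerSL ℂ p).smulRight p) :=
    ⟨_, rfl⟩
  have hnu : HasFDerivAt (nu p a) N' z := by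
    rw [hN']
    unfold nu
    exact ((hi.add_const a).smul_const p).fun_add
      (((hasFDerivAt_id z).fun_sub (hi.smul_const p)).fun_const_smul _)
  have hmv : HasFDerivAt (mv p a)
      ((1 + starRingEnd ℂ a * (inner ℂ p z : ℂ))⁻¹ • N' +
        (-((1 + starRingEnd ℂ a * (inner ℂ p z : ℂ)) ^ 2)⁻¹ •
          (starRingEnd ℂ a • innerSL ℂ p)).smulRight (nu p a z)) z := by
    have h1 : (mv p a) = fun z => (1 + starRingEnd ℂ a * inner ℂ p z)⁻¹ • nu p a z := by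
      funext z
      exact mv_eq p a z
    rw [h1]
    exact hinv.smul hnu
  rw [hmv.fderiv]
  have hN2 : N' (z' - z) = nu p a z' - nu p a z := by
    rw [hN']
    unfold nu
    simp only [add_apply, ContinuousLinearMap.smulRight_apply, smul_apply,
      sub_apply, ContinuousLinearMap.id_apply, innerSL_apply_apply,
      inner_sub_right]
    module
  rw [mv_eq, mv_eq]
  simp only [add_apply, ContinuousLinearMap.smulRight_apply, smul_apply, hN2,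
    innerSL_apply_apply, inner_sub_right, smul_eq_mul]
  obtain ⟨A, hA⟩ : ∃ A, A = nu p a z := ⟨_, rfl⟩
  obtain ⟨A', hA'⟩ : ∃ A', A' = nu p a z' := ⟨_, rfl⟩
  obtain ⟨x, hx⟩ : ∃ x : ℂ, x = inner ℂ p z := ⟨_, rfl⟩
  obtain ⟨x', hx'⟩ : ∃ x' : ℂ, x' = inner ℂ p z' := ⟨_, rfl⟩
  rw [← hA, ← hA', ← hx, ← hx']
  rw [← hx] at hd
  rw [← hx'] at hd'
  have e1 : ∀ (s t s' t' : ℂ), s = s' → t = t' → s • A' + t • A = s' • A' + t' • A := by
    intro s t s' t' h1 h2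
    rw [h1, h2]
  have l1 : (1 + starRingEnd ℂ a * x')⁻¹ • A' - (1 + starRingEnd ℂ a * x)⁻¹ • A =
      (1 + starRingEnd ℂ a * x')⁻¹ • A' + (-(1 + starRingEnd ℂ a * x)⁻¹) • A := by module
  have l2 : ((1 + starRingEnd ℂ a * x) / (1 + starRingEnd ℂ a * x')) •
      ((1 + starRingEnd ℂ a * x)⁻¹ • (A' - A) +
        (-((1 + starRingEnd ℂ a * x) ^ 2)⁻¹ * (starRingEnd ℂ a * (x' - x))) • A) =
      ((1 + starRingEnd ℂ a * x) / (1 + starRingEnd ℂ a * x') * (1 + starRingEnd ℂ a * x)⁻¹) • A' +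
      ((1 + starRingEnd ℂ a * x) / (1 + starRingEnd ℂ a * x') *
        (-(1 + starRingEnd ℂ a * x)⁻¹ +
          -((1 + starRingEnd ℂ a * x) ^ 2)⁻¹ * (starRingEnd ℂ a * (x' - x)))) • A := by module
  rw [l1, l2]
  refine e1 _ _ _ _ ?_ ?_
  · field_simp
  · field_simp
    ring

theorem AF.comp_mv {p : V m} (hp : ‖p‖ = 1) {a : ℂ} (ha : ‖a‖ < 1) {ψ : V m → ℂ}
    (h : AF (ball (0 : V m) 1) ψ) : AF (ball (0 : V m) 1) (fun z => ψ (mv p a z)) := by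
  have A := aut_mv Pool.Agent.W732.Cor.t_mv hp (mem_ball_zero_iff.2 ha)
  have hin : ∀ z ∈ ball (0 : V m) 1, ‖(inner ℂ p z : ℂ)‖ < 1 := by
    intro z hz
    rw [mem_ball_zero_iff] at hz
    calc ‖(inner ℂ p z : ℂ)‖ ≤ ‖p‖ * ‖z‖ := norm_inner_le_norm p z
      _ < 1 := by rw [hp, one_mul]; exact hz
  refine ⟨h.diff.comp A.d1 A.m1, fun z hz z' hz' => ?_⟩
  have h1 := h.fib _ (A.m1 hz) _ (A.m1 hz')
  rw [h1]
  obtain ⟨c, hc, h2⟩ := mv_sub ha (hin z hz) (hin z' hz')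
  have h3 : fderiv ℂ (fun z => ψ (mv p a z)) z =
      (fderiv ℂ ψ (mv p a z)).comp (fderiv ℂ (mv p a) z) :=
    fderiv_comp z (h.diff.differentiableAt (isOpen_ball.mem_nhds (A.m1 hz)))
      (A.d1.differentiableAt (isOpen_ball.mem_nhds hz))
  rw [h2, h3, map_smul, ContinuousLinearMap.comp_apply, smul_eq_mul, mul_eq_zero]
  simp [hc]

theorem One.comp_mv {p : V m} (hp : ‖p‖ = 1) {a : ℂ} (ha : ‖a‖ < 1) {u : V m → ℂ}
    (h : One u) : One (fun z => u (mv p a z)) := by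
  have A := aut_mv Pool.Agent.W732.Cor.t_mv hp (mem_ball_zero_iff.2 ha)
  obtain ⟨f, ψ, h1, h2, h3, h4, h5⟩ := h
  exact ⟨f, fun z => ψ (mv p a z), AF.comp_mv hp ha h1, fun z hz => h2 _ (A.m1 hz), h3, h4,
    fun z hz => h5 _ (A.m1 hz)⟩

end Pool.Agent.Helper85K9.Cor
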