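import Mathlib
import Pool.Agent.Helper85K9.Cor.Mv

/-!
Domains which contain the ball and touch the sphere along finitely many circles; the corona theorem for
functions on such domains, one-dimensional functions and one arbitrary function.
-/

set_option autoImplicit false

open Metric Set Filter Topology WeakDual

namespace Pool.Agent.Helper85K9.Cor

open Pool.Agent.TH310.Cor
open Pool.Agent.Y263.LF (Bez Bez.mono)
open Pool.Agent.W732.Cor (mv)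

variable {m : ℕ}

/-- seen from every boundary point `p`, the domain `Ω` contains full neighbourhoods of the scaled
boundary points `q`, `⟨p, q⟩ = 0` -/
def Tch (Ω : Set (V m)) : Prop :=
  ∀ p : V m, ‖p‖ = 1 → ∀ q : V m, ‖q‖ = 1 → (inner ℂ p q : ℂ) = 0 → ∃ κ r : ℝ, 0 < κ ∧ 0 < r ∧
    ∀ a : ℂ, ‖a‖ < 1 → ‖1 - a‖ < κ → ∀ z ∈ ball q r, mv p a z ∈ Ω

theorem Tch.mono {Ω Ω' : Set (V m)} (h : Tch Ω) (hs : Ω ⊆ Ω') : Tch Ω' := by
  intro p hp q hq hpq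
  obtain ⟨κ, r, hκ, hr, h1⟩ := h p hp q hq hpq
  exact ⟨κ, r, hκ, hr, fun a ha hak z hz => hs (h1 a ha hak z hz)⟩

theorem inner_small {p q z : V m} (hp : ‖p‖ = 1) (hpq : (inner ℂ p q : ℂ) = 0) {r : ℝ}
    (hz : z ∈ ball q r) : ‖(inner ℂ p z : ℂ)‖ ≤ r := by
  have h3 : (inner ℂ p z : ℂ) = inner ℂ p (z - q) := by rw [inner_sub_right, hpq, sub_zero]
  rw [h3]
  refine (norm_inner_le_norm _ _).trans ?_
  rw [hp, one_mul]
  rw [mem_ball, dist_eq_norm] at hz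
  exact hz.le

/-- `mv p a` maps a neighbourhood of `q` near `p` -/
theorem mv_near {p q z : V m} (hp : ‖p‖ = 1) (hq : ‖q‖ = 1) (hpq : (inner ℂ p q : ℂ) = 0)
    (hz : z ∈ ball q (1 / 2)) {a : ℂ} (ha : ‖a‖ < 1) :
    ‖mv p a z - p‖ ^ 2 ≤ 16 * ‖1 - a‖ := by
  have hw := inner_small hp hpq hz
  have hw1 : ‖(inner ℂ p z : ℂ)‖ < 1 := by linarith
  have hids := (mv_ids hp ha hw1).1
  have hin := inner_mv hp a z
  obtain ⟨w, hwd⟩ : ∃ w : ℂ, w = inner ℂ p z := ⟨_, rfl⟩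
  rw [← hwd] at hw hw1 hids hin
  obtain ⟨x, hx⟩ : ∃ x, x = mv p a z := ⟨_, rfl⟩
  rw [← hx] at hids hin ⊢
  have h3 : ‖x - p‖ ^ 2 = (‖x‖ ^ 2 - 1) + 2 * (1 - (inner ℂ p x : ℂ).re) := by
    rw [norm_sub_sq (𝕜 := ℂ), hp]
    have : RCLike.re (inner ℂ x p : ℂ) = (inner ℂ p x : ℂ).re :=
      inner_re_symm (𝕜 := ℂ) _ _
    rw [this]
    ring
  have hcz : ‖starRingEnd ℂ a * w‖ ≤ 1 / 2 := by
    rw [norm_mul, RCLike.norm_conj]
    nlinarith [norm_nonneg a, norm_nonneg w]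
  have hd1 : 1 / 2 ≤ ‖1 + starRingEnd ℂ a * w‖ := by
    have h3 := norm_sub_norm_le (1 : ℂ) (-(starRingEnd ℂ a * w))
    rw [norm_one, norm_neg, sub_neg_eq_add] at h3
    linarith
  have hd0 : (1 + starRingEnd ℂ a * w) ≠ 0 := by
    rw [← norm_pos_iff]; linarith
  have h1c := norm_nonneg (1 - a)
  have ha1 : 1 - ‖a‖ ≤ ‖1 - a‖ := by
    have := norm_sub_norm_le (1 : ℂ) a
    rwa [norm_one] at this
  have ha0 := norm_nonneg a
  -- the norm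
  have hz2 : ‖z‖ ^ 2 - 1 ≤ 5 / 4 := by
    rw [mem_ball, dist_eq_norm] at hz
    have h4 : ‖z‖ ≤ ‖z - q‖ + ‖q‖ := by
      have := norm_add_le (z - q) q
      rwa [sub_add_cancel] at this
    rw [hq] at h4
    nlinarith [norm_nonneg z]
  have h5 : ‖x‖ ^ 2 - 1 ≤ 10 * ‖1 - a‖ := by
    rw [hids]
    rw [div_le_iff₀ (by positivity)]
    have h6 : (1 - ‖a‖ ^ 2) * (‖z‖ ^ 2 - 1) ≤ (2 * ‖1 - a‖) * (5 / 4) := by
      have h7 : 0 ≤ 1 - ‖a‖ ^ 2 := by nlinarith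
      have h8 : 1 - ‖a‖ ^ 2 ≤ 2 * ‖1 - a‖ := by nlinarith
      calc (1 - ‖a‖ ^ 2) * (‖z‖ ^ 2 - 1) ≤ (1 - ‖a‖ ^ 2) * (5 / 4) := by gcongr
        _ ≤ (2 * ‖1 - a‖) * (5 / 4) := by gcongr
    have h7 : (1 / 2 : ℝ) ^ 2 ≤ ‖1 + starRingEnd ℂ a * w‖ ^ 2 := by gcongr
    nlinarith
  -- the inner product
  have h6 : ‖1 - (inner ℂ p x : ℂ)‖ ≤ 3 * ‖1 - a‖ := by
    rw [hin]
    have heq : (1 : ℂ) - (w + a) / (1 + starRingEnd ℂ a * w) =
        ((1 - a) - w * starRingEnd ℂ (1 - a)) / (1 + starRingEnd ℂ a * w) := by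
      rw [map_sub, map_one, eq_div_iff hd0, sub_mul, div_mul_cancel₀ _ hd0]
      ring
    have hn : ‖w * starRingEnd ℂ (1 - a)‖ ≤ 1 / 2 * ‖1 - a‖ := by
      rw [norm_mul, RCLike.norm_conj]
      gcongr
    rw [heq, norm_div, div_le_iff₀ (by linarith)]
    have h7 := norm_sub_le (1 - a) (w * starRingEnd ℂ (1 - a))
    nlinarith
  have h7 : 1 - (inner ℂ p x : ℂ).re ≤ ‖1 - (inner ℂ p x : ℂ)‖ := by
    have h8 := Complex.re_le_norm (1 - (inner ℂ p x : ℂ))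
    rwa [Complex.sub_re, Complex.one_re] at h8
  rw [h3]
  linarith

/-- the domain `{‖z‖² < 1 + c ∏ (1 - |⟨P_i, z⟩|²)}` which touches the sphere along circles -/
def Dm {k : ℕ} (P : Fin k → V m) (c : ℝ) : Set (V m) :=
  {z | (∀ i, ‖(inner ℂ (P i) z : ℂ)‖ < 1) ∧
    ‖z‖ ^ 2 < 1 + c * ∏ i, (1 - ‖(inner ℂ (P i) z : ℂ)‖ ^ 2)}

theorem par_of_one {P p : V m} (hP : ‖P‖ = 1) (hp : ‖p‖ = 1) (h : ‖(inner ℂ P p : ℂ)‖ = 1) :
    ∃ r : ℂ, ‖r‖ = 1 ∧ p = r • P := by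
  have hP0 : P ≠ 0 := by
    intro h0
    rw [h0, norm_zero] at hP
    norm_num at hP
  have hp0 : p ≠ 0 := by
    intro h0
    rw [h0, norm_zero] at hp
    norm_num at hp
  have h1 : ‖(inner ℂ P p : ℂ) / (‖P‖ * ‖p‖)‖ = 1 := by
    rw [hP, hp]
    simpa using h
  obtain ⟨-, r, -, hr⟩ := (norm_inner_div_norm_mul_norm_eq_one_iff (𝕜 := ℂ) P p).1 h1
  refine ⟨r, ?_, hr⟩
  rw [hr, norm_smul, hP, mul_one] at hp
  exact hp

theorem tch_Dm {k : ℕ} {P : Fin k → V m} (hP : ∀ i, ‖P i‖ = 1)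
    (hd : ∀ i j, i ≠ j → ‖(inner ℂ (P i) (P j) : ℂ)‖ < 1) {c : ℝ} (hc : 0 < c) : Tch (Dm P c) := by
  classical
  intro p hp q hq hpq
  set S := Finset.univ.filter (fun i => ‖(inner ℂ (P i) p : ℂ)‖ = 1) with hS
  set T := Finset.univ.filter (fun i => ¬ ‖(inner ℂ (P i) p : ℂ)‖ = 1) with hT
  have hScard : S.card ≤ 1 := by
    rw [Finset.card_le_one]
    intro i hi j hj
    by_contra hij
    rw [hS, Finset.mem_filter] at hi hj
    obtain ⟨r, hr, h1⟩ := par_of_one (hP i) hp hi.2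
    obtain ⟨s, hs, h2⟩ := par_of_one (hP j) hp hj.2
    have hs0 : s ≠ 0 := by rw [← norm_pos_iff, hs]; exact one_pos
    have h3 : P j = (s⁻¹ * r) • P i := by
      rw [mul_smul, ← h1, h2, smul_smul, inv_mul_cancel₀ hs0, one_smul]
    have h4 := hd i j hij
    rw [h3, inner_smul_right, inner_self_eq_norm_sq_to_K, hP i] at h4
    rw [norm_mul, norm_mul, norm_inv, hs, hr] at h4
    norm_num at h4
  have hle : ∀ i, ‖(inner ℂ (P i) p : ℂ)‖ ≤ 1 := by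
    intro i
    have := norm_inner_le_norm (𝕜 := ℂ) (P i) p
    rwa [hP i, hp, one_mul] at this
  have hcont : ∀ i, Continuous (fun z : V m => ‖(inner ℂ (P i) z : ℂ)‖) := fun i =>
    (innerSL ℂ (P i)).continuous.norm
  set Tp : V m → ℝ := fun z => ∏ i ∈ T, (1 - ‖(inner ℂ (P i) z : ℂ)‖ ^ 2) with hTp
  have hTpc : Continuous Tp := by
    rw [hTp]
    exact continuous_finsetProd _ fun i _ => continuous_const.sub ((hcont i).pow 2)
  have ht0 : 0 < Tp p := by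
    rw [hTp]
    refine Finset.prod_pos fun i hi => ?_
    rw [hT, Finset.mem_filter] at hi
    have h1 := lt_of_le_of_ne (hle i) hi.2
    nlinarith [norm_nonneg (inner ℂ (P i) p : ℂ)]
  obtain ⟨t₀, ht₀⟩ : ∃ t₀, t₀ = Tp p := ⟨_, rfl⟩
  rw [← ht₀] at ht0
  have hev : ∀ᶠ z in 𝓝 p, t₀ / 2 < Tp z ∧ ∀ i ∈ T, ‖(inner ℂ (P i) z : ℂ)‖ < 1 := by
    refine Filter.Eventually.and ?_ ?_
    · exact hTpc.continuousAt.eventually (lt_mem_nhds (by rw [← ht₀]; linarith))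
    · rw [Filter.eventually_all_finset]
      intro i hi
      rw [hT, Finset.mem_filter] at hi
      exact (hcont i).continuousAt.eventually (gt_mem_nhds (lt_of_le_of_ne (hle i) hi.2))
  obtain ⟨s, hs, hs2⟩ := Metric.eventually_nhds_iff_ball.1 hev
  obtain ⟨r, hr⟩ : ∃ r, r = min (1 / 2) (c * t₀ / 16) := ⟨_, rfl⟩
  have hr0 : 0 < r := by rw [hr]; positivity
  have hr1 : r ≤ 1 / 2 := by rw [hr]; exact min_le_left _ _
  have hr2 : r ≤ c * t₀ / 16 := by rw [hr]; exact min_le_right _ _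
  refine ⟨s ^ 2 / 16, r, by positivity, hr0, fun a ha hak z hz => ?_⟩
  have hz2 : z ∈ ball q (1 / 2) := ball_subset_ball hr1 hz
  have hnear := mv_near hp hq hpq hz2 ha
  have hxs : mv p a z ∈ ball p s := by
    rw [mem_ball, dist_eq_norm]
    by_contra hcon
    push Not at hcon
    have : s ^ 2 ≤ ‖mv p a z - p‖ ^ 2 := by gcongr
    linarith
  have hw := inner_small hp hpq hz
  have hw1 : ‖(inner ℂ p z : ℂ)‖ < 1 := by linarith
  obtain ⟨hid1, hid2⟩ := mv_ids hp ha hw1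
  have hlt := mv_lt hp ha hw1
  obtain ⟨w, hwd⟩ : ∃ w : ℂ, w = inner ℂ p z := ⟨_, rfl⟩
  rw [← hwd] at hw hw1 hid1 hid2
  obtain ⟨x, hx⟩ : ∃ x, x = mv p a z := ⟨_, rfl⟩
  rw [← hx] at hid1 hid2 hxs hlt ⊢
  obtain ⟨hx1, hx2⟩ := hs2 x hxs
  obtain ⟨τ, hτ⟩ : ∃ τ, τ = 1 - ‖(inner ℂ p x : ℂ)‖ ^ 2 := ⟨_, rfl⟩
  have hτ0 : 0 < τ := by rw [hτ]; nlinarith [norm_nonneg (inner ℂ p x : ℂ)]
  have hτ1 : τ ≤ 1 := by rw [hτ]; nlinarith [norm_nonneg (inner ℂ p x : ℂ)]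
  have hSeq : ∀ i ∈ S, ‖(inner ℂ (P i) x : ℂ)‖ = ‖(inner ℂ p x : ℂ)‖ := by
    intro i hi
    rw [hS, Finset.mem_filter] at hi
    obtain ⟨r, hr, h1⟩ := par_of_one (hP i) hp hi.2
    rw [h1, inner_smul_left, norm_mul, RCLike.norm_conj, hr, one_mul]
  have hprod : τ * (t₀ / 2) ≤ ∏ i, (1 - ‖(inner ℂ (P i) x : ℂ)‖ ^ 2) := by
    rw [← Finset.prod_filter_mul_prod_filter_not Finset.univ
      (fun i => ‖(inner ℂ (P i) p : ℂ)‖ = 1)]
    have h1 : ∏ i ∈ S, (1 - ‖(inner ℂ (P i) x : ℂ)‖ ^ 2) = τ ^ S.card := by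
      rw [← Finset.prod_const]
      refine Finset.prod_congr rfl fun i hi => ?_
      rw [hSeq i hi, hτ]
    have h2 : τ ≤ τ ^ S.card := by
      interval_cases hcd : S.card
      · simpa using hτ1
      · simp
    change τ * (t₀ / 2) ≤ (∏ i ∈ S, (1 - ‖(inner ℂ (P i) x : ℂ)‖ ^ 2)) * Tp x
    rw [h1]
    have h3 : t₀ / 2 ≤ Tp x := hx1.le
    gcongr
  refine ⟨fun i => ?_, ?_⟩
  · by_cases hi : ‖(inner ℂ (P i) p : ℂ)‖ = 1
    · rw [hSeq i (by rw [hS, Finset.mem_filter]; exact ⟨Finset.mem_univ _, hi⟩)]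
      exact hlt
    · exact hx2 i (by rw [hT, Finset.mem_filter]; exact ⟨Finset.mem_univ _, hi⟩)
  · have hX0 : 0 < (1 - ‖a‖ ^ 2) / ‖1 + starRingEnd ℂ a * w‖ ^ 2 := by
      have h3 := norm_pos_iff.2 (den_ne ha hw1)
      have h4 : 0 < 1 - ‖a‖ ^ 2 := by nlinarith [norm_nonneg a]
      positivity
    obtain ⟨X, hX⟩ : ∃ X, X = (1 - ‖a‖ ^ 2) / ‖1 + starRingEnd ℂ a * w‖ ^ 2 := ⟨_, rfl⟩
    rw [← hX] at hX0
    have e1 : ‖x‖ ^ 2 - 1 = X * (‖z‖ ^ 2 - 1) := by rw [hid1, hX]; ring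
    have e2 : τ = X * (1 - ‖w‖ ^ 2) := by rw [hτ, hid2, hX]; ring
    have hz3 : ‖z‖ ^ 2 - 1 ≤ 4 * r * (1 - ‖w‖ ^ 2) := by
      rw [mem_ball, dist_eq_norm] at hz
      have h4 : ‖z‖ ≤ ‖z - q‖ + ‖q‖ := by
        have := norm_add_le (z - q) q
        rwa [sub_add_cancel] at this
      rw [hq] at h4
      have h5 : ‖z‖ ^ 2 - 1 ≤ 5 / 2 * r := by
        have h51 : ‖z‖ ≤ 1 + r := by linarith
        have h52 : ‖z‖ ^ 2 ≤ (1 + r) ^ 2 := by gcongr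
        have h53 : (1 + r) ^ 2 - 1 ≤ 5 / 2 * r := by nlinarith
        linarith
      have h6 : 3 / 4 ≤ 1 - ‖w‖ ^ 2 := by
        have h61 : ‖w‖ ≤ 1 / 2 := hw.trans hr1
        have h62 : ‖w‖ ^ 2 ≤ (1 / 2) ^ 2 := by gcongr
        linarith
      calc ‖z‖ ^ 2 - 1 ≤ 5 / 2 * r := h5
        _ ≤ 4 * r * (3 / 4) := by linarith
        _ ≤ 4 * r * (1 - ‖w‖ ^ 2) := by gcongr
    have e3 : ‖x‖ ^ 2 - 1 ≤ 4 * r * τ := by
      rw [e1, e2]
      calc X * (‖z‖ ^ 2 - 1) ≤ X * (4 * r * (1 - ‖w‖ ^ 2)) := by gcongr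
        _ = 4 * r * (X * (1 - ‖w‖ ^ 2)) := by ring
    have e4 : 4 * r * τ < c * (τ * (t₀ / 2)) := by
      have h1 : 4 * r < c * (t₀ / 2) := by
        have : 0 < c * t₀ := by positivity
        linarith
      calc 4 * r * τ < c * (t₀ / 2) * τ := by gcongr
        _ = c * (τ * (t₀ / 2)) := by ring
    have e5 : c * (τ * (t₀ / 2)) ≤ c * ∏ i, (1 - ‖(inner ℂ (P i) x : ℂ)‖ ^ 2) := by gcongr
    linarith

/-- Schwarz lemma, crude form -/
theorem schwarz_osc {E : Type} [NormedAddCommGroup E] [NormedSpace ℂ E] {f : E → ℂ} {x : E} {R : ℝ}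
    (hR : 0 < R) (hf : DifferentiableOn ℂ f (ball x R)) (hb : ∀ y ∈ ball x R, ‖f y‖ ≤ 1) {y : E}
    (hy : y ∈ ball x R) : ‖f y - f x‖ ≤ 3 / R * ‖y - x‖ := by
  by_cases hyx : y = x
  · rw [hyx]
    simp
  have hd : 0 < ‖y - x‖ := norm_pos_iff.2 (sub_ne_zero.2 hyx)
  have hmaps : MapsTo (fun t : ℂ => x + t • (y - x)) (ball 0 (R / ‖y - x‖)) (ball x R) := by
    intro t ht
    rw [mem_ball_zero_iff, lt_div_iff₀ hd] at ht
    rw [mem_ball, dist_eq_norm, add_sub_cancel_left, norm_smul]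
    exact ht
  have hdl : DifferentiableOn ℂ (fun t : ℂ => x + t • (y - x)) (ball 0 (R / ‖y - x‖)) := by
    fun_prop
  have h1 : DifferentiableOn ℂ (fun t : ℂ => f (x + t • (y - x))) (ball 0 (R / ‖y - x‖)) :=
    hf.comp hdl hmaps
  have h2 : MapsTo (fun t : ℂ => f (x + t • (y - x))) (ball 0 (R / ‖y - x‖))
      (closedBall ((fun t : ℂ => f (x + t • (y - x))) 0) 3) := by
    intro t ht
    rw [mem_closedBall, dist_eq_norm]
    simp only [zero_smul, add_zero]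
    have h3 := norm_sub_le (f (x + t • (y - x))) (f x)
    have h4 := hb _ (hmaps ht)
    have h5 := hb x (mem_ball_self hR)
    linarith
  have h3 : (1 : ℂ) ∈ ball (0 : ℂ) (R / ‖y - x‖) := by
    rw [mem_ball_zero_iff, norm_one, lt_div_iff₀ hd, one_mul]
    rwa [mem_ball, dist_eq_norm] at hy
  have h4 := Complex.dist_le_div_mul_dist_of_mapsTo_ball h1 h2 h3
  rw [dist_eq_norm, dist_eq_norm] at h4
  simp only [one_smul, zero_smul, add_zero, add_sub_cancel, sub_zero, norm_one, mul_one] at h4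
  calc ‖f y - f x‖ ≤ 3 / (R / ‖y - x‖) := h4
    _ = 3 / R * ‖y - x‖ := by field_simp

/-- the values of one more function may be prescribed -/
theorem add_fun {I : Type} {N : ℕ} {F : I → Fin N → V m → ℂ} (hF : ∀ i j, HB (F i j))
    {G : I → V m → ℂ} (hG : ∀ i, HB (G i))
    (h : ∀ s : ℂ, ‖s‖ ≤ 1 →
      Solv (fun i => (Fin.cons (fun z => (G i z - s) / 2) (F i) : Fin (N + 1) → V m → ℂ))) :
    Solv F := by
  classical
  by_contra hns
  let tI : TopologicalSpace I := ⊥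
  have dI : DiscreteTopology I := ⟨rfl⟩
  obtain ⟨χ, hχ⟩ := exists_zero hF hns
  obtain ⟨s, hs⟩ : ∃ s : ℂ, s = χ (El (f := fun i => G i) hG) := ⟨_, rfl⟩
  have hs1 : ‖s‖ ≤ 1 := by
    rw [hs]
    refine (char_le χ _).trans (norm_le zero_le_one fun x => ?_)
    exact (hG x.1).2 x.2 x.2.2
  have hFB : ∀ i (o : Fin (N + 1)),
      HB ((Fin.cons (fun z => (G i z - s) / 2) (F i) : Fin (N + 1) → V m → ℂ) o) := by
    intro i o
    refine Fin.cases ?_ (fun j => ?_) o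
    · refine ⟨?_, fun z hz => ?_⟩
      · have h6 := (hG i).1
        simp only [Fin.cons_zero, div_eq_mul_inv]
        exact (h6.sub_const _).mul_const _
      · change ‖(G i z - s) / 2‖ ≤ 1
        rw [norm_div, show ‖(2 : ℂ)‖ = 2 by norm_num, div_le_one (by norm_num)]
        have h6 := norm_sub_le (G i z) s
        have h7 := (hG i).2 z hz
        linarith
    · exact hF i j
  obtain ⟨C, hC⟩ := h s hs1
  refine not_solv (F := fun i => (Fin.cons (fun z => (G i z - s) / 2) (F i) :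
    Fin (N + 1) → V m → ℂ)) hFB χ univ (by rw [Id_univ', map_one]) ?_ ⟨C, fun i => hC i.1⟩
  intro o
  refine Fin.cases ?_ (fun j => ?_) o
  · have h3 : El (f := fun (i : I) => (Fin.cons (fun z => (G i z - s) / 2) (F i) :
        Fin (N + 1) → V m → ℂ) 0) (fun i => hFB i 0) =
        (Cc (1/2) * (El (f := fun i => G i) hG - Cc s) : HI I m) := by
      apply ext'
      rintro ⟨x, z⟩
      change (G x (z : V m) - s) / 2 = (1/2 : ℂ) * (G x (z : V m) - s)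
      ring
    rw [h3, map_mul, map_sub, char_Cc, char_Cc, ← hs, sub_self, mul_zero]
  · exact hχ j

end Pool.Agent.Helper85K9.Cor
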