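import Mathlib
import Pool.Agent.Helper85K9.Cor.Touch

/-!
Polynomials in one arbitrary function whose coefficients vary slowly on cells at two scales.
-/

set_option autoImplicit false

open Metric Set Filter Topology WeakDual

namespace Pool.Agent.Helper85K9.Cor

open Pool.Agent.TH310.Cor
open Pool.Agent.Y263.LF (Bez Bez.mono)
open Pool.Agent.W732.Cor (mv)

variable {m : ℕ}

theorem geo2 (x y : ℂ) (k : ℕ) :
    x ^ k = y ^ k + (x - y) * ∑ i ∈ Finset.range k, x ^ i * y ^ (k - 1 - i) := by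
  have h := (Commute.all x y).geom_sum₂_mul k
  linear_combination -h

/-- the algebraic step on one cell: `f_j = ∑ a_{jk} G^k`, where the `a_{jk}` vary little -/
theorem poly_cell {X : Type} [NormedAddCommGroup X] [NormedSpace ℂ X] {N D : ℕ} {δ : ℝ}
    (hδ : 0 < δ) {S : Set X} {a : Fin N → Fin D → X → ℂ} {G : X → ℂ} {s : ℂ} (hs : ‖s‖ ≤ 1)
    (ha : ∀ j k, DifferentiableOn ℂ (a j k) S) (hG : DifferentiableOn ℂ G S)
    (ha1 : ∀ j k, ∀ z ∈ S, ‖a j k z‖ ≤ 1) (hG1 : ∀ z ∈ S, ‖G z‖ ≤ 1)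
    (hlow : ∀ z ∈ S, δ ≤ ∑ j, ‖∑ k, a j k z * G z ^ (k : ℕ)‖)
    {z₀ : X} (hosc : ∀ j k, ∀ z ∈ S, ‖a j k z - a j k z₀‖ ≤ δ / (4 * (N + 1) * (D + 1))) :
    Bez S (Fin.cons (fun z => (G z - s) / 2)
      (fun j z => (∑ k, a j k z * G z ^ (k : ℕ)) / (D + 1)) : Fin (N + 1) → X → ℂ)
      (8 * (N + 1) * (D + 1) ^ 2 / δ) := by
  classical
  have hN0 : (0 : ℝ) ≤ N := Nat.cast_nonneg N
  have hD0 : (0 : ℝ) ≤ D := Nat.cast_nonneg D
  obtain ⟨d, hd⟩ : ∃ d : ℝ, d = D + 1 := ⟨_, rfl⟩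
  have hd1 : 1 ≤ d := by rw [hd]; linarith
  obtain ⟨n, hn⟩ : ∃ n : ℝ, n = N + 1 := ⟨_, rfl⟩
  have hn1 : 1 ≤ n := by rw [hn]; linarith
  obtain ⟨η, hη⟩ : ∃ η : ℝ, η = δ / (4 * n) := ⟨_, rfl⟩
  have hη0 : 0 < η := by rw [hη]; positivity
  have hηn : 4 * n * η = δ := by rw [hη]; field_simp
  rw [← hd, ← hn]
  rw [← hd, ← hn] at hosc
  -- the functions with `G` replaced by `s`
  obtain ⟨v, hv⟩ : ∃ v : Fin N → X → ℂ, ∀ j z, v j z = ∑ k, a j k z * s ^ (k : ℕ) :=
    ⟨fun j z => ∑ k, a j k z * s ^ (k : ℕ), fun j z => rfl⟩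
  have hve : ∀ j, v j = fun z => ∑ k, a j k z * s ^ (k : ℕ) := fun j => funext (hv j)
  obtain ⟨K, hK⟩ : ∃ K : Fin N → X → ℂ, ∀ j z, K j z = ∑ k, a j k z *
      ∑ i ∈ Finset.range (k : ℕ), G z ^ i * s ^ ((k : ℕ) - 1 - i) :=
    ⟨fun j z => ∑ k, a j k z * ∑ i ∈ Finset.range (k : ℕ), G z ^ i * s ^ ((k : ℕ) - 1 - i),
      fun j z => rfl⟩
  have hKe : ∀ j, K j = fun z => ∑ k, a j k z *
      ∑ i ∈ Finset.range (k : ℕ), G z ^ i * s ^ ((k : ℕ) - 1 - i) := fun j => funext (hK j)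
  have hvd : ∀ j, DifferentiableOn ℂ (v j) S := by
    intro j
    rw [hve]
    exact DifferentiableOn.fun_sum fun k _ => (ha j k).mul_const _
  have hKd : ∀ j, DifferentiableOn ℂ (K j) S := by
    intro j
    rw [hKe]
    exact DifferentiableOn.fun_sum fun k _ => (ha j k).mul
      (DifferentiableOn.fun_sum fun i _ => (hG.pow _).mul_const _)
  have hid : ∀ j z, ∑ k, a j k z * G z ^ (k : ℕ) = v j z + (G z - s) * K j z := by
    intro j z
    rw [hv, hK, Finset.mul_sum, ← Finset.sum_add_distrib]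
    refine Finset.sum_congr rfl fun k _ => ?_
    rw [geo2 (G z) s k]
    ring
  have hpow : ∀ k : ℕ, ‖s ^ k‖ ≤ 1 := fun k => by
    rw [norm_pow]
    exact pow_le_one₀ (norm_nonneg _) hs
  have hKb : ∀ j, ∀ z ∈ S, ‖K j z‖ ≤ d ^ 2 := by
    intro j z hz
    rw [hK]
    refine (norm_sum_le _ _).trans ?_
    have h1 : ∀ k ∈ (Finset.univ : Finset (Fin D)), ‖a j k z *
        ∑ i ∈ Finset.range (k : ℕ), G z ^ i * s ^ ((k : ℕ) - 1 - i)‖ ≤ d := by
      intro k _
      rw [norm_mul]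
      have h2 : ‖∑ i ∈ Finset.range (k : ℕ), G z ^ i * s ^ ((k : ℕ) - 1 - i)‖ ≤ (k : ℕ) := by
        refine (norm_sum_le _ _).trans ?_
        have h3 : ∀ i ∈ Finset.range (k : ℕ), ‖G z ^ i * s ^ ((k : ℕ) - 1 - i)‖ ≤ 1 := by
          intro i _
          rw [norm_mul, norm_pow]
          exact mul_le_one₀ (pow_le_one₀ (norm_nonneg _) (hG1 z hz)) (norm_nonneg _) (hpow _)
        refine (Finset.sum_le_sum h3).trans ?_
        simp
      have h4 : ((k : ℕ) : ℝ) ≤ d := by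
        rw [hd]
        have := k.2
        have h5 : ((k : ℕ) : ℝ) ≤ D := by exact_mod_cast this.le
        linarith
      calc ‖a j k z‖ * _ ≤ 1 * ((k : ℕ) : ℝ) := by
            gcongr
            exact ha1 j k z hz
        _ ≤ d := by rw [one_mul]; exact h4
    refine (Finset.sum_le_sum h1).trans ?_
    rw [Finset.sum_const, Finset.card_univ, Fintype.card_fin, nsmul_eq_mul, sq]
    gcongr
    rw [hd]
    linarith
  have hvosc : ∀ j, ∀ z ∈ S, ‖v j z - v j z₀‖ ≤ η := by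
    intro j z hz
    rw [hv, hv, ← Finset.sum_sub_distrib]
    refine (norm_sum_le _ _).trans ?_
    have h1 : ∀ k ∈ (Finset.univ : Finset (Fin D)),
        ‖a j k z * s ^ (k : ℕ) - a j k z₀ * s ^ (k : ℕ)‖ ≤ δ / (4 * n * d) := by
      intro k _
      rw [← sub_mul, norm_mul]
      calc ‖a j k z - a j k z₀‖ * ‖s ^ (k : ℕ)‖ ≤ δ / (4 * n * d) * 1 := by
            have := hosc j k z hz
            gcongr
            exact hpow _
        _ = _ := mul_one _
    refine (Finset.sum_le_sum h1).trans ?_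
    rw [Finset.sum_const, Finset.card_univ, Fintype.card_fin, nsmul_eq_mul]
    have h2 : (D : ℝ) ≤ d := by rw [hd]; linarith
    calc (D : ℝ) * (δ / (4 * n * d)) ≤ d * (δ / (4 * n * d)) := by gcongr
      _ = η := by rw [hη]; field_simp
  by_cases hex : ∃ j, 2 * η ≤ ‖v j z₀‖
  · obtain ⟨j, hj⟩ := hex
    have hvl : ∀ z ∈ S, η ≤ ‖v j z‖ := by
      intro z hz
      have h1 := hvosc j z hz
      have h2 := norm_sub_norm_le (v j z₀) (v j z)
      rw [norm_sub_rev] at h2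
      linarith
    have hne : ∀ z ∈ S, v j z ≠ 0 := by
      intro z hz h0
      have := hvl z hz
      rw [h0, norm_zero] at this
      linarith
    have hinv : ∀ z ∈ S, ‖(v j z)⁻¹‖ ≤ η⁻¹ := fun z hz => by
      rw [norm_inv]
      exact inv_anti₀ hη0 (hvl z hz)
    refine ⟨Fin.cons (fun z => -2 * K j z * (v j z)⁻¹)
      (fun i z => if i = j then (d : ℂ) * (v j z)⁻¹ else 0), fun i => ?_, fun i z hz => ?_,
      fun z hz => ?_⟩
    · refine Fin.cases ?_ (fun i => ?_) i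
      · exact ((hKd j).const_mul _).mul ((hvd j).inv hne)
      · simp only [Fin.cons_succ]
        by_cases hi : i = j
        · simp only [if_pos hi]
          exact ((hvd j).inv hne).const_mul _
        · simp only [if_neg hi]
          exact differentiableOn_const _
    · refine Fin.cases ?_ (fun i => ?_) i
      · change ‖-2 * K j z * (v j z)⁻¹‖ ≤ _
        rw [norm_mul, norm_mul, norm_neg, show ‖(2 : ℂ)‖ = 2 by norm_num]
        calc 2 * ‖K j z‖ * ‖(v j z)⁻¹‖ ≤ 2 * d ^ 2 * η⁻¹ := by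
              gcongr
              · exact hKb j z hz
              · exact hinv z hz
          _ = 8 * n * d ^ 2 / δ := by rw [hη]; field_simp; norm_num
      · simp only [Fin.cons_succ]
        by_cases hi : i = j
        · rw [if_pos hi, norm_mul, Complex.norm_real, Real.norm_of_nonneg (by linarith)]
          calc d * ‖(v j z)⁻¹‖ ≤ (2 * d ^ 2) * η⁻¹ := by
                have : d ≤ 2 * d ^ 2 := by nlinarith
                gcongr
                exact hinv z hz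
            _ = 8 * n * d ^ 2 / δ := by rw [hη]; field_simp; norm_num
        · rw [if_neg hi, norm_zero]
          positivity
    · rw [Fin.sum_univ_succ]
      simp only [Fin.cons_zero, Fin.cons_succ, mul_ite, mul_zero]
      rw [Finset.sum_ite_eq' Finset.univ j, if_pos (Finset.mem_univ _), hid j z]
      have h1 := hne z hz
      have h2 : (d : ℂ) ≠ 0 := by
        have : d ≠ 0 := by linarith
        exact_mod_cast this
      have h3 : ((D : ℂ) + 1) = (d : ℂ) := by rw [hd]; push_cast; rfl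
      rw [h3]
      field_simp
      ring
  · push Not at hex
    have hGl : ∀ z ∈ S, δ / (4 * n * d ^ 2) ≤ ‖G z - s‖ := by
      intro z hz
      have h1 := hlow z hz
      have h2 : ∀ j ∈ (Finset.univ : Finset (Fin N)), ‖∑ k, a j k z * G z ^ (k : ℕ)‖ ≤
          3 * η + ‖G z - s‖ * d ^ 2 := by
        intro j _
        rw [hid j z]
        have h3 := norm_add_le (v j z) ((G z - s) * K j z)
        have h4 : ‖v j z‖ ≤ 3 * η := by
          have h5 := hvosc j z hz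
          have h6 := hex j
          have h7 := norm_sub_norm_le (v j z) (v j z₀)
          linarith
        have h5 : ‖(G z - s) * K j z‖ ≤ ‖G z - s‖ * d ^ 2 := by
          rw [norm_mul]
          gcongr
          exact hKb j z hz
        linarith
      have h3 := Finset.sum_le_sum h2
      rw [Finset.sum_const, Finset.card_univ, Fintype.card_fin, nsmul_eq_mul] at h3
      have hNn : (N : ℝ) ≤ n := by rw [hn]; linarith
      have h4 : (N : ℝ) * (3 * η + ‖G z - s‖ * d ^ 2) ≤ n * (3 * η + ‖G z - s‖ * d ^ 2) := by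
        gcongr
      rw [div_le_iff₀ (by positivity)]
      nlinarith
    have hq0 : 0 < δ / (4 * n * d ^ 2) := by positivity
    have hne : ∀ z ∈ S, G z - s ≠ 0 := by
      intro z hz h0
      have := hGl z hz
      rw [h0, norm_zero] at this
      linarith
    refine ⟨Fin.cons (fun z => 2 * (G z - s)⁻¹) (fun _ _ => 0), fun i => ?_, fun i z hz => ?_,
      fun z hz => ?_⟩
    · refine Fin.cases ?_ (fun i => ?_) i
      · exact ((hG.sub_const s).inv hne).const_mul _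
      · exact differentiableOn_const _
    · refine Fin.cases ?_ (fun i => ?_) i
      · change ‖2 * (G z - s)⁻¹‖ ≤ _
        rw [norm_mul, norm_inv, show ‖(2 : ℂ)‖ = 2 by norm_num]
        have h1 := inv_anti₀ hq0 (hGl z hz)
        calc 2 * ‖G z - s‖⁻¹ ≤ 2 * (δ / (4 * n * d ^ 2))⁻¹ := by gcongr
          _ = 8 * n * d ^ 2 / δ := by field_simp; norm_num
      · simp only [Fin.cons_succ, norm_zero]
        positivity
    · rw [Fin.sum_univ_succ]
      simp only [Fin.cons_zero, Fin.cons_succ, mul_zero, Finset.sum_const_zero, add_zero]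
      have h1 := hne z hz
      field_simp

/-- multiplication of the data with a constant -/
theorem Solv.scale {I : Type} {N : ℕ} {F : I → Fin N → V m → ℂ} {c : ℂ}
    (h : Solv (fun i j z => F i j z * c)) : Solv F := by
  obtain ⟨C, hC⟩ := h
  refine ⟨‖c‖ * C, fun i => ?_⟩
  obtain ⟨g, g1, g2, g3⟩ := hC i
  refine ⟨fun j z => c * g j z, fun j => (g1 j).const_mul _, fun j z hz => ?_, fun z hz => ?_⟩
  · rw [norm_mul]
    gcongr
    exact g2 j z hz
  · rw [← g3 z hz]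
    exact Finset.sum_congr rfl fun j _ => by ring

/-- oscillation on the cells -/
theorem osc_prod {L : ℕ} {Ω : Set (V m)} {p q : V m} (hp : ‖p‖ = 1) (hpq : (inner ℂ p q : ℂ) = 0)
    {a : ℂ} (ha : ‖a‖ < 1) {r₁ R ε θ : ℝ} (hr₁1 : r₁ ≤ 1) (hR0 : 0 < R) (hR : R = r₁ / 2)
    (hε0 : 0 < ε) (hεR : ε ≤ R / 2) (hεθ : ε ≤ θ * R / 3) (hmap : ∀ z ∈ ball q r₁, mv p a z ∈ Ω)
    {f : V m × (Fin L → ℂ) → ℂ} (hf : DifferentiableOn ℂ f (Ω ×ˢ ball (0 : Fin L → ℂ) 2))
    (hb : ∀ x ∈ Ω ×ˢ ball (0 : Fin L → ℂ) 2, ‖f x‖ ≤ 1) {z z₀ : V m} {w w₀ : Fin L → ℂ}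
    (hz₀ : z₀ ∈ ball q (ε / 2)) (hz : z ∈ ball q (ε / 2)) (hw₀1 : ‖w₀‖ ≤ 1)
    (hww : ‖w - w₀‖ ≤ ε) : ‖f (mv p a z, w) - f (mv p a z₀, w₀)‖ ≤ θ := by
  have hlt1 : ∀ y ∈ ball q r₁, ‖(inner ℂ p y : ℂ)‖ < 1 := by
    intro y hy
    have h3 : (inner ℂ p y : ℂ) = inner ℂ p (y - q) := by
      rw [inner_sub_right, hpq, sub_zero]
    rw [h3]
    refine (norm_inner_le_norm _ _).trans_lt ?_
    rw [hp, one_mul]
    rw [mem_ball, dist_eq_norm] at hy
    linarith
  rw [mem_ball, dist_eq_norm] at hz₀ hz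
  have hzz : ‖z - z₀‖ ≤ ε := by
    have h3 : z - z₀ = (z - q) - (z₀ - q) := by abel
    rw [h3]
    refine (norm_sub_le _ _).trans ?_
    linarith
  have hsub : ∀ y ∈ ball ((z₀, w₀) : V m × (Fin L → ℂ)) R,
      y.1 ∈ ball q r₁ ∧ y.2 ∈ ball (0 : Fin L → ℂ) 2 := by
    intro y hy
    rw [mem_ball, dist_eq_norm, Prod.norm_def, max_lt_iff] at hy
    obtain ⟨hy1, hy2⟩ := hy
    simp only [Prod.fst_sub, Prod.snd_sub] at hy1 hy2
    constructor
    · rw [mem_ball, dist_eq_norm]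
      have h3 : y.1 - q = (y.1 - z₀) + (z₀ - q) := by abel
      rw [h3]
      refine (norm_add_le _ _).trans_lt ?_
      linarith
    · rw [mem_ball_zero_iff]
      have h3 : y.2 = (y.2 - w₀) + w₀ := by abel
      rw [h3]
      refine (norm_add_le _ _).trans_lt ?_
      linarith
  have hmap2 : MapsTo (fun y : V m × (Fin L → ℂ) => (mv p a y.1, y.2))
      (ball ((z₀, w₀) : V m × (Fin L → ℂ)) R) (Ω ×ˢ ball (0 : Fin L → ℂ) 2) := by
    intro y hy
    exact ⟨hmap _ (hsub y hy).1, (hsub y hy).2⟩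
  have hd2 : DifferentiableOn ℂ (fun y : V m × (Fin L → ℂ) => (mv p a y.1, y.2))
      (ball ((z₀, w₀) : V m × (Fin L → ℂ)) R) := by
    refine DifferentiableOn.prodMk ?_ differentiableOn_snd
    exact (mv_diffOn ha (S := ball q r₁) hlt1).comp differentiableOn_fst
      (fun y hy => (hsub y hy).1)
  have h4 : ‖((z, w) : V m × (Fin L → ℂ)) - (z₀, w₀)‖ ≤ ε := by
    rw [Prod.norm_def, max_le_iff]
    exact ⟨hzz, hww⟩
  have hmem : ((z, w) : V m × (Fin L → ℂ)) ∈ ball ((z₀, w₀) : V m × (Fin L → ℂ)) R := by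
    rw [mem_ball, dist_eq_norm]
    linarith
  have hd3 : DifferentiableOn ℂ (fun y : V m × (Fin L → ℂ) => f (mv p a y.1, y.2))
      (ball ((z₀, w₀) : V m × (Fin L → ℂ)) R) := hf.comp hd2 hmap2
  have hb3 : ∀ y ∈ ball ((z₀, w₀) : V m × (Fin L → ℂ)) R, ‖f (mv p a y.1, y.2)‖ ≤ 1 :=
    fun y hy => hb _ (hmap2 hy)
  have h3 := schwarz_osc hR0 hd3 hb3 hmem
  have h5 : 3 / R * ‖((z, w) : V m × (Fin L → ℂ)) - (z₀, w₀)‖ ≤ 3 / R * (θ * R / 3) :=
    mul_le_mul_of_nonneg_left (h4.trans hεθ) (by positivity)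
  have h6 : 3 / R * (θ * R / 3) = θ := by field_simp
  rw [h6] at h5
  exact h3.trans h5

/-- **Corona theorem for functions on domains which touch the sphere along circles,
one-dimensional functions and one arbitrary function.** -/
theorem touch_main (m N L D : ℕ) {δ : ℝ} (hδ : 0 < δ) {Ω : Set (V m)} (hB : ball 0 1 ⊆ Ω)
    (hΩ : Tch Ω) : ∃ C : ℝ, ∀ (u : Fin L → V m → ℂ) (A : Fin N → Fin D → V m × (Fin L → ℂ) → ℂ)
    (G : V m → ℂ), (∀ l, One (u l)) →
    (∀ j k, DifferentiableOn ℂ (A j k) (Ω ×ˢ ball (0 : Fin L → ℂ) 2)) →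
    (∀ j k, ∀ x ∈ Ω ×ˢ ball (0 : Fin L → ℂ) 2, ‖A j k x‖ ≤ 1) → HB G →
    (∀ z ∈ ball (0 : V m) 1, δ ≤ ∑ j, ‖∑ k, A j k (z, fun l => u l z) * G z ^ (k : ℕ)‖) →
    Bez (ball (0 : V m) 1) (fun j z => ∑ k, A j k (z, fun l => u l z) * G z ^ (k : ℕ)) C := by
  classical
  let I : Type := {x : (Fin L → V m → ℂ) × (Fin N → Fin D → V m × (Fin L → ℂ) → ℂ) × (V m → ℂ) //
    (∀ l, One (x.1 l)) ∧
    (∀ j k, DifferentiableOn ℂ (x.2.1 j k) (Ω ×ˢ ball (0 : Fin L → ℂ) 2)) ∧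
    (∀ j k, ∀ y ∈ Ω ×ˢ ball (0 : Fin L → ℂ) 2, ‖x.2.1 j k y‖ ≤ 1) ∧ HB x.2.2 ∧
    (∀ z ∈ ball (0 : V m) 1,
      δ ≤ ∑ j, ‖∑ k, x.2.1 j k (z, fun l => x.1 l z) * x.2.2 z ^ (k : ℕ)‖)}
  have hN0 : (0 : ℝ) ≤ N := Nat.cast_nonneg N
  have hD0 : (0 : ℝ) ≤ D := Nat.cast_nonneg D
  have hdc : ((D : ℂ) + 1) ≠ 0 := by exact_mod_cast Nat.succ_ne_zero D
  have hdn : ‖((D : ℂ) + 1)‖ = D + 1 := by
    have : ((D : ℂ) + 1) = ((D + 1 : ℝ) : ℂ) := by push_cast; rfl
    rw [this, Complex.norm_real, Real.norm_of_nonneg (by positivity)]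
  -- the map to the parameters
  have hup : ∀ (i : I), ∀ z ∈ ball (0 : V m) 1,
      (z, fun l => i.1.1 l z) ∈ Ω ×ˢ ball (0 : Fin L → ℂ) 2 := by
    intro i z hz
    refine ⟨hB hz, ?_⟩
    rw [mem_ball_zero_iff]
    refine ((pi_norm_le_iff_of_nonneg zero_le_one).2 fun l => ?_).trans_lt one_lt_two
    exact (i.2.1 l).bd z hz
  have hud : ∀ (i : I), DifferentiableOn ℂ (fun z => (z, fun l => i.1.1 l z)) (ball (0 : V m) 1) := by
    intro i
    refine differentiableOn_id.prodMk ?_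
    rw [differentiableOn_pi]
    exact fun l => (i.2.1 l).diff
  have had : ∀ (i : I) j k, DifferentiableOn ℂ (fun z => i.1.2.1 j k (z, fun l => i.1.1 l z))
      (ball (0 : V m) 1) := fun i j k => (i.2.2.1 j k).comp (hud i) (hup i)
  have hG : ∀ i : I, HB i.1.2.2 := fun i => i.2.2.2.2.1
  have key : Solv (fun (i : I) (j : Fin N) z =>
      (∑ k, i.1.2.1 j k (z, fun l => i.1.1 l z) * i.1.2.2 z ^ (k : ℕ)) / ((D : ℂ) + 1)) := by
    have hF : ∀ (i : I) (j : Fin N), HB (fun z =>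
        (∑ k, i.1.2.1 j k (z, fun l => i.1.1 l z) * i.1.2.2 z ^ (k : ℕ)) / ((D : ℂ) + 1)) := by
      intro i j
      refine ⟨?_, fun z hz => ?_⟩
      · simp only [div_eq_mul_inv]
        refine DifferentiableOn.mul_const ?_ _
        exact DifferentiableOn.fun_sum fun k _ => (had i j k).mul ((hG i).1.pow _)
      · rw [norm_div, hdn, div_le_one (by positivity)]
        refine (norm_sum_le _ _).trans ?_
        have h1 : ∀ k ∈ (Finset.univ : Finset (Fin D)),
            ‖i.1.2.1 j k (z, fun l => i.1.1 l z) * i.1.2.2 z ^ (k : ℕ)‖ ≤ 1 := by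
          intro k _
          rw [norm_mul, norm_pow]
          exact mul_le_one₀ (i.2.2.2.1 j k _ (hup i z hz)) (by positivity)
            (pow_le_one₀ (norm_nonneg _) ((hG i).2 z hz))
        refine (Finset.sum_le_sum h1).trans ?_
        simp
    refine add_fun hF hG fun s hs => ?_
    have hF' : ∀ (i : I) (o : Fin (N + 1)), HB ((Fin.cons (fun z => (i.1.2.2 z - s) / 2)
        (fun (j : Fin N) z => (∑ k, i.1.2.1 j k (z, fun l => i.1.1 l z) * i.1.2.2 z ^ (k : ℕ)) /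
          ((D : ℂ) + 1)) : Fin (N + 1) → V m → ℂ) o) := by
      intro i o
      refine Fin.cases ?_ (fun j => ?_) o
      · refine ⟨?_, fun z hz => ?_⟩
        · simp only [Fin.cons_zero, div_eq_mul_inv]
          exact ((hG i).1.sub_const _).mul_const _
        · change ‖(i.1.2.2 z - s) / 2‖ ≤ 1
          rw [norm_div, show ‖(2 : ℂ)‖ = 2 by norm_num, div_le_one (by norm_num)]
          have h6 := norm_sub_le (i.1.2.2 z) s
          have h7 := (hG i).2 z hz
          linarith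
      · exact hF i j
    refine two_scale_fam hF' (δ := δ / (D + 1)) (by positivity) ?_ ?_
    · intro i z hz
      rw [Fin.sum_univ_succ]
      simp only [Fin.cons_zero, Fin.cons_succ]
      have h1 := i.2.2.2.2.2 z hz
      have h2 : ∑ j : Fin N, ‖(∑ k, i.1.2.1 j k (z, fun l => i.1.1 l z) * i.1.2.2 z ^ (k : ℕ)) /
          ((D : ℂ) + 1)‖ = (∑ j : Fin N,
          ‖∑ k, i.1.2.1 j k (z, fun l => i.1.1 l z) * i.1.2.2 z ^ (k : ℕ)‖) / (D + 1) := by
        rw [Finset.sum_div]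
        exact Finset.sum_congr rfl fun j _ => by rw [norm_div, hdn]
      rw [h2]
      have h3 : δ / (D + 1) ≤ (∑ j : Fin N,
          ‖∑ k, i.1.2.1 j k (z, fun l => i.1.1 l z) * i.1.2.2 z ^ (k : ℕ)‖) / (D + 1) := by
        gcongr
      have h4 := norm_nonneg ((i.1.2.2 z - s) / 2)
      linarith
    · intro p hp q hq hpq
      obtain ⟨κ, r, hκ, hr, hmap⟩ := hΩ p hp q hq hpq
      obtain ⟨r₁, hr₁⟩ : ∃ r₁, r₁ = min r 1 := ⟨_, rfl⟩
      have hr₁0 : 0 < r₁ := by rw [hr₁]; positivity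
      have hr₁r : r₁ ≤ r := by rw [hr₁]; exact min_le_left _ _
      have hr₁1 : r₁ ≤ 1 := by rw [hr₁]; exact min_le_right _ _
      obtain ⟨R, hR⟩ : ∃ R, R = r₁ / 2 := ⟨_, rfl⟩
      have hR0 : 0 < R := by rw [hR]; positivity
      obtain ⟨θ, hθ⟩ : ∃ θ, θ = δ / (4 * (N + 1) * (D + 1)) := ⟨_, rfl⟩
      have hθ0 : 0 < θ := by rw [hθ]; positivity
      obtain ⟨ε, hε⟩ : ∃ ε, ε = min (R / 2) (θ * R / 3) := ⟨_, rfl⟩
      have hε0 : 0 < ε := by rw [hε]; positivity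
      have hεR : ε ≤ R / 2 := by rw [hε]; exact min_le_left _ _
      have hεθ : ε ≤ θ * R / 3 := by rw [hε]; exact min_le_right _ _
      refine ⟨L, κ, ε / 2, ε, 8 * (N + 1) * (D + 1) ^ 2 / δ, hκ, by positivity, hε0,
        fun i a ha hak => ?_⟩
      have hA := aut_mv Pool.Agent.W732.Cor.t_mv hp (mem_ball_zero_iff.2 ha)
      refine ⟨fun l z => i.1.1 l (mv p a z), fun l => (i.2.1 l).comp_mv hp ha, fun z₀ hz₀ => ?_⟩
      set S : Set (V m) := {z | z ∈ ball (0 : V m) 1 ∩ ball q (ε / 2) ∧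
        ∀ l, ‖i.1.1 l (mv p a z) - i.1.1 l (mv p a z₀)‖ < ε} with hS
      have hSB : S ⊆ ball 0 1 := fun z hz => hz.1.1
      have hmS : MapsTo (mv p a) S (ball 0 1) := fun z hz => hA.m1 (hSB hz)
      have hdS : DifferentiableOn ℂ (mv p a) S := hA.d1.mono hSB
      have h1 := poly_cell (N := N) (D := D) hδ (S := S)
        (a := fun j k z => i.1.2.1 j k (mv p a z, fun l => i.1.1 l (mv p a z)))
        (G := fun z => i.1.2.2 (mv p a z)) hs
        (fun j k => (had i j k).comp hdS hmS) ((hG i).1.comp hdS hmS)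
        (fun j k z hz => i.2.2.2.1 j k _ (hup i _ (hmS hz)))
        (fun z hz => (hG i).2 _ (hmS hz)) (fun z hz => i.2.2.2.2.2 _ (hmS hz)) (z₀ := z₀) (fun j k z hz => by
          rw [← hθ]
          refine osc_prod (L := L) hp hpq ha hr₁1 hR0 hR hε0 hεR hεθ
            (fun y hy => hmap a ha hak y (ball_subset_ball hr₁r hy)) (i.2.2.1 j k) (i.2.2.2.1 j k)
            hz₀.2 hz.1.2 ?_ ?_
          · exact (pi_norm_le_iff_of_nonneg zero_le_one).2 fun l => (i.2.1 l).bd _ (hA.m1 hz₀.1)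
          · rw [pi_norm_le_iff_of_nonneg hε0.le]
            exact fun l => (hz.2 l).le)
      have e1 : (fun (j : Fin (N + 1)) z => (Fin.cons (fun z => (i.1.2.2 z - s) / 2)
          (fun (j : Fin N) z =>
            (∑ k, i.1.2.1 j k (z, fun l => i.1.1 l z) * i.1.2.2 z ^ (k : ℕ)) / ((D : ℂ) + 1)) :
          Fin (N + 1) → V m → ℂ) j (mv p a z)) =
          (Fin.cons (fun z => (i.1.2.2 (mv p a z) - s) / 2)
          (fun (j : Fin N) z => (∑ k, i.1.2.1 j k (mv p a z, fun l => i.1.1 l (mv p a z)) *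
            i.1.2.2 (mv p a z) ^ (k : ℕ)) / ((D : ℂ) + 1)) : Fin (N + 1) → V m → ℂ) := by
        funext j z
        refine Fin.cases ?_ (fun j => ?_) j
        · rfl
        · rfl
      rw [e1]
      exact h1
  obtain ⟨C, hC⟩ := Solv.scale (c := ((D : ℂ) + 1)⁻¹) (F := fun (i : I) (j : Fin N) z =>
    ∑ k, i.1.2.1 j k (z, fun l => i.1.1 l z) * i.1.2.2 z ^ (k : ℕ)) (by
      simp only [div_eq_mul_inv] at key
      exact key)
  exact ⟨C, fun u A G h1 h2 h3 h4 h5 => hC ⟨(u, A, G), h1, h2, h3, h4, h5⟩⟩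

end Pool.Agent.Helper85K9.Cor
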